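import Pool.Agent.Run7.h156.FPX.Tab

/-!
# Tight drawings with few vertices
-/

set_option autoImplicit false

namespace Run7.h156.FPX

open Pool.Agent.Q238.FP

/-- tables for 3 vertices -/
def T3 : Tab where
  n := 3
  k := 3
  f := 2
  hn := by decide
  hf := by decide
  ln := [0, 0, 0]
  off := [0, 0, 0]
  cre := []
  crk := []
  tl := []
  vt := [0, 1, 1, 2, 2, 0]
  rt := [5, 2, 1, 4, 3, 0]
  ri := [5, 2, 1, 4, 3, 0]
  rv := [5, 1, 3]
  kx := [1, 0, 1, 0, 1, 0]
  fc := [0, 1, 0, 1, 0, 1]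
  lc := [0, 0, 0]
  ly := [5, 1, 3]
  rpe := [0, 0]
  rpi := [0, 0]
  rpb := [false, true]
  kd := [0, 0, 2, 1, 1, 2]
  pae := [0, 0]
  pai := [0, 0]
  pab := [false, true]

/-- masks of the regions of T3 -/
def T3R (e e' : ℕ) : ℕ :=
  0

set_option maxRecDepth 100000 in
/-- the drawing with 3 vertices and 3 edges -/
def CT3 : CD (Fin 3) (Fin 3) (Fin 2) :=
  T3.cd (by decide) (by decide) (by decide) (by decide) (by decide) (by decide) (by decide)
    (by decide) (by decide) (by decide) (by decide) (by decide) (by decide) (by decide) (by decide)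
    (by decide)

set_option maxRecDepth 100000 in
theorem good_T3 : CT3.Good where
  loopless := by
    change ∀ e : Fin 3, T3.vert (e, false) ≠ T3.vert (e, true)
    decide
  simple := by
    refine ⟨fun x b b' => ?_, fun x y h h' => ?_⟩
    · exact (by decide : ∀ (e : Fin 3) (i : Fin (T3.len e)) (b b' : Bool),
        T3.vert (e, b) ≠ T3.vert ((T3.cr ⟨e, i⟩).1, b')) x.1 x.2 b b'
    · rcases x with ⟨e, i⟩
      rcases y with ⟨e', j⟩
      dsimp only at h
      subst h
      rw [(by decide : ∀ (e : Fin 3) (i j : Fin (T3.len e)),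
        (T3.cr ⟨e, i⟩).1 = (T3.cr ⟨e, j⟩).1 → i = j) e i j h']
  fan := by
    change ∀ e : Fin 3, (∃ w : Fin 3, ∀ i : Fin (T3.len e),
      T3.vert ((T3.cr ⟨e, i⟩).1, T3.toLeft ⟨e, i⟩) = w) ∨ ∃ w : Fin 3,
      ∀ i : Fin (T3.len e),
      T3.vert ((T3.cr ⟨e, i⟩).1, !T3.toLeft ⟨e, i⟩) = w
    decide
  hom := by
    have key : ∀ e e' : Fin 3, e ≠ e' →
        (T3.vert (e, false) = T3.vert (e', false) ∧
          T3.vert (e, true) = T3.vert (e', true) ∨
        T3.vert (e, false) = T3.vert (e', true) ∧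
          T3.vert (e, true) = T3.vert (e', false)) →
        (∀ (a : Fin 3) (i : Fin (T3.len a + 1)) (b : Bool),
          ((T3R e e').testBit (T3.face (⟨a, i⟩, b)) =
            (T3R e e').testBit (T3.face (⟨a, i⟩, !b))) ↔ a ≠ e ∧ a ≠ e') ∧
        (∃ v : Fin 3, v ≠ T3.vert (e, false) ∧ v ≠ T3.vert (e, true) ∧
          (T3R e e').testBit (T3.loc v) = true) ∧
        ∃ v : Fin 3, v ≠ T3.vert (e, false) ∧ v ≠ T3.vert (e, true) ∧
          ¬ (T3R e e').testBit (T3.loc v) = true := by decide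
    intro e e' hne hp
    obtain ⟨k1, k2, k3⟩ := key e e' hne (pair_cases hp)
    refine ⟨{f | (T3R e e').testBit f = true}, fun d => ?_, k2, k3⟩
    rw [← k1 d.1.1 d.1.2 d.2]
    exact Bool.eq_iff_iff.symm

end Run7.h156.FPX
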