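import Pool.Agent.Run7.h156.FPX.Tab

/-!
# Tight drawings with few vertices
-/

set_option autoImplicit false

namespace Run7.h156.FPX

open Pool.Agent.Q238.FP

/-- tables for 4 vertices -/
def T4 : Tab where
  n := 4
  k := 8
  f := 8
  hn := by decide
  hf := by decide
  ln := [0, 0, 0, 0, 1, 1, 1, 1]
  off := [0, 0, 0, 0, 0, 1, 2, 3]
  cre := [5, 4, 7, 6]
  crk := [0, 0, 0, 0]
  tl := [true, false, false, true]
  vt := [0, 1, 1, 2, 2, 3, 3, 0, 0, 2, 1, 3, 0, 2, 1, 3]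
  rt := [12, 10, 14, 9, 13, 11, 15, 8, 0, 4, 2, 6, 7, 3, 1, 5]
  ri := [8, 14, 10, 13, 9, 15, 11, 12, 7, 3, 1, 5, 0, 4, 2, 6]
  rv := [7, 1, 3, 5]
  kx := [2, 0, 2, 0, 2, 0, 2, 0, 1, 1, 1, 1, 3, 3, 3, 3]
  fc := [0, 1, 3, 5, 6, 7, 2, 4, 1, 4, 5, 7, 5, 1, 7, 4, 2, 0, 6, 3, 0, 3, 2, 6]
  lc := [2, 0, 3, 6]
  ly := [7, 1, 3, 5]
  rpe := [0, 0, 3, 1, 3, 1, 2, 2]
  rpi := [0, 0, 0, 0, 0, 0, 0, 0]
  rpb := [false, true, false, false, true, true, false, true]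
  kd := [0, 0, 0, 0, 0, 0, 0, 0, 2, 1, 1, 2, 2, 1, 1, 2, 2, 1, 1, 2, 2, 1, 1, 2]
  pae := [0, 0, 6, 7, 3, 1, 6, 2]
  pai := [0, 0, 0, 0, 0, 0, 1, 0]
  pab := [false, true, false, true, true, true, false, true]

/-- masks of the regions of T4 -/
def T4R (e e' : ℕ) : ℕ :=
  if e = 4 ∧ e' = 6 ∨ e = 6 ∧ e' = 4 then 212 else
  if e = 5 ∧ e' = 7 ∨ e = 7 ∧ e' = 5 then 232 else
  0

set_option maxRecDepth 100000 in
/-- the drawing with 4 vertices and 8 edges -/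
def CT4 : CD (Fin 4) (Fin 8) (Fin 8) :=
  T4.cd (by decide) (by decide) (by decide) (by decide) (by decide) (by decide) (by decide)
    (by decide) (by decide) (by decide) (by decide) (by decide) (by decide) (by decide) (by decide)
    (by decide)

set_option maxRecDepth 100000 in
theorem good_T4 : CT4.Good where
  loopless := by
    change ∀ e : Fin 8, T4.vert (e, false) ≠ T4.vert (e, true)
    decide
  simple := by
    refine ⟨fun x b b' => ?_, fun x y h h' => ?_⟩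
    · exact (by decide : ∀ (e : Fin 8) (i : Fin (T4.len e)) (b b' : Bool),
        T4.vert (e, b) ≠ T4.vert ((T4.cr ⟨e, i⟩).1, b')) x.1 x.2 b b'
    · rcases x with ⟨e, i⟩
      rcases y with ⟨e', j⟩
      dsimp only at h
      subst h
      rw [(by decide : ∀ (e : Fin 8) (i j : Fin (T4.len e)),
        (T4.cr ⟨e, i⟩).1 = (T4.cr ⟨e, j⟩).1 → i = j) e i j h']
  fan := by
    change ∀ e : Fin 8, (∃ w : Fin 4, ∀ i : Fin (T4.len e),
      T4.vert ((T4.cr ⟨e, i⟩).1, T4.toLeft ⟨e, i⟩) = w) ∨ ∃ w : Fin 4,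
      ∀ i : Fin (T4.len e),
      T4.vert ((T4.cr ⟨e, i⟩).1, !T4.toLeft ⟨e, i⟩) = w
    decide
  hom := by
    have key : ∀ e e' : Fin 8, e ≠ e' →
        (T4.vert (e, false) = T4.vert (e', false) ∧
          T4.vert (e, true) = T4.vert (e', true) ∨
        T4.vert (e, false) = T4.vert (e', true) ∧
          T4.vert (e, true) = T4.vert (e', false)) →
        (∀ (a : Fin 8) (i : Fin (T4.len a + 1)) (b : Bool),
          ((T4R e e').testBit (T4.face (⟨a, i⟩, b)) =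
            (T4R e e').testBit (T4.face (⟨a, i⟩, !b))) ↔ a ≠ e ∧ a ≠ e') ∧
        (∃ v : Fin 4, v ≠ T4.vert (e, false) ∧ v ≠ T4.vert (e, true) ∧
          (T4R e e').testBit (T4.loc v) = true) ∧
        ∃ v : Fin 4, v ≠ T4.vert (e, false) ∧ v ≠ T4.vert (e, true) ∧
          ¬ (T4R e e').testBit (T4.loc v) = true := by decide
    intro e e' hne hp
    obtain ⟨k1, k2, k3⟩ := key e e' hne (pair_cases hp)
    refine ⟨{f | (T4R e e').testBit f = true}, fun d => ?_, k2, k3⟩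
    rw [← k1 d.1.1 d.1.2 d.2]
    exact Bool.eq_iff_iff.symm

end Run7.h156.FPX
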