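import Pool.Agent.Run7.h156.FPX.Tab

/-!
# Tight drawings with few vertices
-/

set_option autoImplicit false

namespace Run7.h156.FPX

open Pool.Agent.Q238.FP

/-- tables for 5 vertices -/
def T5 : Tab where
  n := 5
  k := 15
  f := 22
  hn := by decide
  hf := by decide
  ln := [0, 0, 0, 0, 0, 2, 2, 2, 2, 2, 2, 2, 2, 2, 2]
  off := [0, 0, 0, 0, 0, 0, 2, 4, 6, 8, 10, 12, 14, 16, 18]
  cre := [8, 7, 8, 9, 5, 9, 5, 6, 7, 6, 13, 12, 13, 14, 10, 14, 10, 11, 12, 11]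
  crk := [0, 0, 1, 1, 1, 0, 0, 0, 1, 1, 0, 0, 1, 1, 1, 0, 0, 0, 1, 1]
  tl := [true, true, true, true, false, true, false, false, false, false, false, false, false, false, true, false, true, true, true, true]
  vt := [0, 1, 1, 2, 2, 3, 3, 4, 4, 0, 0, 2, 0, 3, 1, 3, 1, 4, 2, 4, 0, 2, 0, 3, 1, 3, 1, 4, 2, 4]
  rt := [20, 16, 24, 11, 28, 15, 23, 19, 27, 12, 0, 18, 10, 6, 2, 13, 14, 8, 4, 17, 22, 3, 9, 25, 26, 5, 1, 29, 21, 7]
  ri := [10, 26, 14, 21, 18, 25, 13, 29, 17, 22, 12, 3, 9, 15, 16, 5, 1, 19, 11, 7, 0, 28, 20, 6, 2, 23, 24, 8, 4, 27]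
  rv := [9, 1, 3, 5, 7]
  kx := [3, 0, 3, 0, 3, 0, 3, 0, 3, 0, 2, 1, 1, 2, 2, 1, 1, 2, 2, 1, 4, 5, 5, 4, 4, 5, 5, 4, 4, 5]
  fc := [0, 1, 8, 11, 19, 21, 18, 20, 6, 9, 1, 4, 5, 10, 11, 16, 4, 9, 10, 15, 17, 20, 11, 5, 16, 10, 21, 17, 5, 1, 10, 4, 15, 9, 21, 16, 17, 10, 20, 15, 2, 0, 7, 3, 13, 8, 6, 2, 12, 7, 18, 14, 3, 8, 7, 13, 14, 19, 0, 3, 2, 7, 6, 12, 13, 19, 7, 14, 12, 18]
  lc := [6, 0, 8, 19, 18]
  ly := [9, 1, 3, 5, 7]
  rpe := [0, 0, 10, 10, 5, 5, 4, 10, 1, 4, 5, 1, 11, 10, 11, 6, 5, 6, 3, 2, 3, 2]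
  rpi := [0, 0, 0, 1, 0, 1, 0, 1, 0, 0, 1, 0, 1, 2, 2, 1, 2, 2, 0, 0, 0, 0]
  rpb := [false, true, false, true, true, false, false, false, false, true, true, true, false, false, true, true, true, false, false, false, true, true]
  kd := [0, 0, 0, 0, 0, 0, 0, 0, 0, 0, 2, 0, 0, 0, 1, 0, 2, 1, 3, 0, 0, 2, 2, 2, 2, 1, 1, 2, 1, 1, 4, 1, 2, 2, 2, 1, 1, 2, 1, 1, 0, 1, 0, 0, 0, 2, 2, 1, 0, 2, 1, 0, 1, 1, 4, 1, 1, 2, 2, 2, 2, 1, 1, 1, 2, 1, 3, 2, 2, 2]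
  pae := [0, 0, 10, 13, 5, 8, 11, 10, 12, 4, 5, 1, 11, 10, 14, 6, 5, 9, 11, 12, 3, 2]
  pai := [0, 0, 0, 0, 0, 0, 0, 1, 0, 0, 1, 0, 1, 2, 1, 1, 2, 1, 2, 2, 0, 0]
  pab := [false, true, false, true, true, false, false, false, true, true, true, true, false, false, true, true, true, false, false, true, true, true]

/-- masks of the regions of T5 -/
def T5R (e e' : ℕ) : ℕ :=
  if e = 5 ∧ e' = 10 ∨ e = 10 ∧ e' = 5 then 4191956 else
  if e = 6 ∧ e' = 11 ∨ e = 11 ∧ e' = 6 then 1348160 else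
  if e = 7 ∧ e' = 12 ∨ e = 12 ∧ e' = 7 then 2697472 else
  if e = 8 ∧ e' = 13 ∨ e = 13 ∧ e' = 8 then 4193704 else
  if e = 9 ∧ e' = 14 ∨ e = 14 ∧ e' = 9 then 4079616 else
  0

set_option maxRecDepth 100000 in
/-- the drawing with 5 vertices and 15 edges -/
def CT5 : CD (Fin 5) (Fin 15) (Fin 22) :=
  T5.cd (by decide) (by decide) (by decide) (by decide) (by decide) (by decide) (by decide)
    (by decide) (by decide) (by decide) (by decide) (by decide) (by decide) (by decide) (by decide)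
    (by decide)

set_option maxRecDepth 100000 in
theorem good_T5 : CT5.Good where
  loopless := by
    change ∀ e : Fin 15, T5.vert (e, false) ≠ T5.vert (e, true)
    decide
  simple := by
    refine ⟨fun x b b' => ?_, fun x y h h' => ?_⟩
    · exact (by decide : ∀ (e : Fin 15) (i : Fin (T5.len e)) (b b' : Bool),
        T5.vert (e, b) ≠ T5.vert ((T5.cr ⟨e, i⟩).1, b')) x.1 x.2 b b'
    · rcases x with ⟨e, i⟩
      rcases y with ⟨e', j⟩
      dsimp only at h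
      subst h
      rw [(by decide : ∀ (e : Fin 15) (i j : Fin (T5.len e)),
        (T5.cr ⟨e, i⟩).1 = (T5.cr ⟨e, j⟩).1 → i = j) e i j h']
  fan := by
    change ∀ e : Fin 15, (∃ w : Fin 5, ∀ i : Fin (T5.len e),
      T5.vert ((T5.cr ⟨e, i⟩).1, T5.toLeft ⟨e, i⟩) = w) ∨ ∃ w : Fin 5,
      ∀ i : Fin (T5.len e),
      T5.vert ((T5.cr ⟨e, i⟩).1, !T5.toLeft ⟨e, i⟩) = w
    decide
  hom := by
    have key : ∀ e e' : Fin 15, e ≠ e' →
        (T5.vert (e, false) = T5.vert (e', false) ∧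
          T5.vert (e, true) = T5.vert (e', true) ∨
        T5.vert (e, false) = T5.vert (e', true) ∧
          T5.vert (e, true) = T5.vert (e', false)) →
        (∀ (a : Fin 15) (i : Fin (T5.len a + 1)) (b : Bool),
          ((T5R e e').testBit (T5.face (⟨a, i⟩, b)) =
            (T5R e e').testBit (T5.face (⟨a, i⟩, !b))) ↔ a ≠ e ∧ a ≠ e') ∧
        (∃ v : Fin 5, v ≠ T5.vert (e, false) ∧ v ≠ T5.vert (e, true) ∧
          (T5R e e').testBit (T5.loc v) = true) ∧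
        ∃ v : Fin 5, v ≠ T5.vert (e, false) ∧ v ≠ T5.vert (e, true) ∧
          ¬ (T5R e e').testBit (T5.loc v) = true := by decide
    intro e e' hne hp
    obtain ⟨k1, k2, k3⟩ := key e e' hne (pair_cases hp)
    refine ⟨{f | (T5R e e').testBit f = true}, fun d => ?_, k2, k3⟩
    rw [← k1 d.1.1 d.1.2 d.2]
    exact Bool.eq_iff_iff.symm

end Run7.h156.FPX
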