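import Pool.Agent.Run7.h156.FPX.Tab

/-!
# Tight drawings with few vertices
-/

set_option autoImplicit false

namespace Run7.h156.FPX

open Pool.Agent.Q238.FP

/-- tables for 6 vertices -/
def T6 : Tab where
  n := 6
  k := 20
  f := 31
  hn := by decide
  hf := by decide
  ln := [0, 0, 0, 0, 0, 3, 3, 3, 3, 3, 2, 2, 2, 2, 2, 1, 1, 1, 1, 1]
  off := [0, 0, 0, 0, 0, 0, 3, 6, 9, 12, 15, 17, 19, 21, 23, 25, 26, 27, 28, 29]
  cre := [8, 16, 7, 8, 19, 9, 5, 17, 9, 5, 15, 6, 7, 18, 6, 13, 12, 13, 14, 10, 14, 10, 11, 12, 11, 8, 5, 7, 9, 6]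
  crk := [0, 0, 0, 2, 0, 2, 2, 0, 0, 0, 0, 0, 2, 0, 2, 0, 0, 1, 1, 1, 0, 0, 0, 1, 1, 1, 1, 1, 1, 1]
  tl := [true, true, true, true, false, true, false, true, true, false, false, false, false, true, false, false, false, false, false, true, false, true, true, true, true, true, false, false, false, true]
  vt := [0, 1, 1, 2, 2, 3, 3, 4, 4, 0, 0, 2, 0, 3, 1, 3, 1, 4, 2, 4, 0, 2, 0, 3, 1, 3, 1, 4, 2, 4, 0, 5, 1, 5, 2, 5, 3, 5, 4, 5]
  rt := [20, 16, 24, 11, 28, 15, 23, 19, 27, 12, 0, 34, 30, 6, 2, 36, 32, 8, 4, 38, 22, 3, 9, 25, 26, 5, 1, 29, 21, 7, 10, 39, 14, 31, 18, 33, 13, 35, 17, 37]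
  ri := [10, 26, 14, 21, 18, 25, 13, 29, 17, 22, 30, 3, 9, 36, 32, 5, 1, 38, 34, 7, 0, 28, 20, 6, 2, 23, 24, 8, 4, 27, 12, 33, 16, 35, 11, 37, 15, 39, 19, 31]
  rv := [9, 1, 3, 5, 7, 31]
  kx := [4, 0, 4, 0, 4, 0, 4, 0, 4, 0, 3, 1, 1, 3, 3, 1, 1, 3, 3, 1, 5, 6, 6, 5, 5, 6, 6, 5, 5, 6, 2, 0, 2, 4, 2, 3, 2, 2, 2, 1]
  fc := [0, 1, 8, 16, 21, 27, 20, 26, 6, 12, 1, 4, 5, 9, 11, 18, 16, 22, 10, 12, 17, 19, 23, 25, 29, 26, 16, 11, 22, 18, 28, 24, 27, 30, 5, 1, 9, 4, 17, 10, 19, 12, 27, 28, 30, 24, 29, 23, 26, 25, 2, 0, 7, 3, 14, 8, 6, 2, 13, 7, 20, 15, 3, 8, 7, 14, 15, 21, 0, 3, 2, 7, 6, 13, 14, 21, 7, 15, 13, 20, 4, 10, 9, 17, 11, 5, 18, 9, 28, 22, 24, 18, 29, 30, 23, 24, 19, 25, 17, 23]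
  lc := [6, 0, 8, 21, 20, 9]
  ly := [9, 1, 3, 5, 7, 31]
  rpe := [0, 0, 10, 10, 5, 5, 4, 10, 1, 5, 6, 5, 4, 11, 10, 11, 1, 6, 5, 6, 3, 2, 5, 6, 7, 6, 3, 2, 7, 6, 7]
  rpi := [0, 0, 0, 1, 0, 1, 0, 1, 0, 1, 0, 2, 0, 1, 2, 2, 0, 1, 2, 1, 0, 0, 3, 2, 2, 2, 0, 0, 2, 3, 3]
  rpb := [false, true, false, true, true, false, false, false, false, true, false, false, true, false, false, true, true, false, true, true, false, false, true, false, true, true, true, true, false, false, true]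
  kd := [0, 0, 0, 0, 0, 0, 0, 0, 0, 0, 2, 0, 0, 0, 0, 0, 1, 0, 0, 1, 0, 0, 0, 0, 0, 2, 2, 2, 2, 1, 0, 0, 1, 0, 1, 1, 3, 1, 1, 2, 2, 2, 2, 2, 2, 1, 1, 3, 1, 1, 0, 1, 0, 0, 0, 2, 2, 1, 0, 2, 1, 0, 1, 1, 4, 1, 1, 2, 2, 2, 2, 1, 1, 1, 2, 1, 3, 2, 2, 2, 2, 1, 2, 2, 1, 2, 3, 1, 1, 1, 3, 2, 2, 1, 2, 2, 1, 2, 3, 1]
  pae := [0, 0, 10, 13, 5, 8, 11, 10, 12, 5, 15, 16, 4, 11, 10, 14, 1, 8, 5, 6, 11, 12, 5, 19, 17, 6, 3, 2, 7, 6, 7]
  pai := [0, 0, 0, 0, 0, 0, 0, 1, 0, 1, 0, 0, 0, 1, 2, 1, 0, 2, 2, 1, 2, 2, 3, 1, 1, 2, 0, 0, 2, 3, 3]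
  pab := [false, true, false, true, true, false, false, false, true, true, true, false, true, false, false, true, true, false, true, true, false, true, true, true, false, true, true, true, false, false, true]

/-- masks of the regions of T6 -/
def T6R (e e' : ℕ) : ℕ :=
  if e = 5 ∧ e' = 10 ∨ e = 10 ∧ e' = 5 then 2147415764 else
  if e = 6 ∧ e' = 11 ∨ e = 11 ∧ e' = 6 then 102248512 else
  if e = 7 ∧ e' = 12 ∨ e = 12 ∧ e' = 7 then 409026816 else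
  if e = 8 ∧ e' = 13 ∨ e = 13 ∧ e' = 8 then 2147478440 else
  if e = 9 ∧ e' = 14 ∨ e = 14 ∧ e' = 9 then 1815117824 else
  0

set_option maxRecDepth 100000 in
/-- the drawing with 6 vertices and 20 edges -/
def CT6 : CD (Fin 6) (Fin 20) (Fin 31) :=
  T6.cd (by decide) (by decide) (by decide) (by decide) (by decide) (by decide) (by decide)
    (by decide) (by decide) (by decide) (by decide) (by decide) (by decide) (by decide) (by decide)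
    (by decide)

set_option maxRecDepth 100000 in
theorem good_T6 : CT6.Good where
  loopless := by
    change ∀ e : Fin 20, T6.vert (e, false) ≠ T6.vert (e, true)
    decide
  simple := by
    refine ⟨fun x b b' => ?_, fun x y h h' => ?_⟩
    · exact (by decide : ∀ (e : Fin 20) (i : Fin (T6.len e)) (b b' : Bool),
        T6.vert (e, b) ≠ T6.vert ((T6.cr ⟨e, i⟩).1, b')) x.1 x.2 b b'
    · rcases x with ⟨e, i⟩
      rcases y with ⟨e', j⟩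
      dsimp only at h
      subst h
      rw [(by decide : ∀ (e : Fin 20) (i j : Fin (T6.len e)),
        (T6.cr ⟨e, i⟩).1 = (T6.cr ⟨e, j⟩).1 → i = j) e i j h']
  fan := by
    change ∀ e : Fin 20, (∃ w : Fin 6, ∀ i : Fin (T6.len e),
      T6.vert ((T6.cr ⟨e, i⟩).1, T6.toLeft ⟨e, i⟩) = w) ∨ ∃ w : Fin 6,
      ∀ i : Fin (T6.len e),
      T6.vert ((T6.cr ⟨e, i⟩).1, !T6.toLeft ⟨e, i⟩) = w
    decide
  hom := by
    have key : ∀ e e' : Fin 20, e ≠ e' →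
        (T6.vert (e, false) = T6.vert (e', false) ∧
          T6.vert (e, true) = T6.vert (e', true) ∨
        T6.vert (e, false) = T6.vert (e', true) ∧
          T6.vert (e, true) = T6.vert (e', false)) →
        (∀ (a : Fin 20) (i : Fin (T6.len a + 1)) (b : Bool),
          ((T6R e e').testBit (T6.face (⟨a, i⟩, b)) =
            (T6R e e').testBit (T6.face (⟨a, i⟩, !b))) ↔ a ≠ e ∧ a ≠ e') ∧
        (∃ v : Fin 6, v ≠ T6.vert (e, false) ∧ v ≠ T6.vert (e, true) ∧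
          (T6R e e').testBit (T6.loc v) = true) ∧
        ∃ v : Fin 6, v ≠ T6.vert (e, false) ∧ v ≠ T6.vert (e, true) ∧
          ¬ (T6R e e').testBit (T6.loc v) = true := by decide
    intro e e' hne hp
    obtain ⟨k1, k2, k3⟩ := key e e' hne (pair_cases hp)
    refine ⟨{f | (T6R e e').testBit f = true}, fun d => ?_, k2, k3⟩
    rw [← k1 d.1.1 d.1.2 d.2]
    exact Bool.eq_iff_iff.symm

end Run7.h156.FPX
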