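import Pool.Agent.Run7.h156.FPX.Tab

/-!
# Tight drawings with few vertices
-/

set_option autoImplicit false

namespace Run7.h156.FPX

open Pool.Agent.Q238.FP

/-- tables for 7 vertices -/
def T7 : Tab where
  n := 7
  k := 25
  f := 40
  hn := by decide
  hf := by decide
  ln := [0, 0, 0, 0, 0, 3, 3, 3, 3, 3, 3, 3, 3, 3, 3, 1, 1, 1, 1, 1, 1, 1, 1, 1, 1]
  off := [0, 0, 0, 0, 0, 0, 3, 6, 9, 12, 15, 18, 21, 24, 27, 30, 31, 32, 33, 34, 35, 36, 37, 38, 39]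
  cre := [8, 16, 7, 8, 19, 9, 5, 17, 9, 5, 15, 6, 7, 18, 6, 13, 21, 12, 13, 24, 14, 10, 22, 14, 10, 20, 11, 12, 23, 11, 8, 5, 7, 9, 6, 13, 10, 12, 14, 11]
  crk := [0, 0, 0, 2, 0, 2, 2, 0, 0, 0, 0, 0, 2, 0, 2, 0, 0, 0, 2, 0, 2, 2, 0, 0, 0, 0, 0, 2, 0, 2, 1, 1, 1, 1, 1, 1, 1, 1, 1, 1]
  tl := [true, true, true, true, false, true, false, true, true, false, false, false, false, true, false, false, false, false, false, true, false, true, false, false, true, true, true, true, false, true, true, false, false, false, true, false, true, true, true, false]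
  vt := [0, 1, 1, 2, 2, 3, 3, 4, 4, 0, 0, 2, 0, 3, 1, 3, 1, 4, 2, 4, 0, 2, 0, 3, 1, 3, 1, 4, 2, 4, 0, 5, 1, 5, 2, 5, 3, 5, 4, 5, 0, 6, 1, 6, 2, 6, 3, 6, 4, 6]
  rt := [20, 16, 24, 11, 28, 15, 23, 19, 27, 12, 0, 34, 30, 6, 2, 36, 32, 8, 4, 38, 40, 3, 9, 46, 42, 5, 1, 48, 44, 7, 10, 39, 14, 31, 18, 33, 13, 35, 17, 37, 22, 43, 26, 45, 21, 47, 25, 49, 29, 41]
  ri := [10, 26, 14, 21, 18, 25, 13, 29, 17, 22, 30, 3, 9, 36, 32, 5, 1, 38, 34, 7, 0, 44, 40, 6, 2, 46, 42, 8, 4, 48, 12, 33, 16, 35, 11, 37, 15, 39, 19, 31, 20, 49, 24, 41, 28, 43, 23, 45, 27, 47]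
  rv := [9, 1, 3, 5, 7, 31, 41]
  kx := [4, 0, 4, 0, 4, 0, 4, 0, 4, 0, 3, 1, 1, 3, 3, 1, 1, 3, 3, 1, 5, 7, 7, 5, 5, 7, 7, 5, 5, 7, 2, 0, 2, 4, 2, 3, 2, 2, 2, 1, 6, 0, 6, 1, 6, 2, 6, 3, 6, 4]
  fc := [0, 1, 15, 19, 37, 39, 36, 38, 14, 18, 1, 4, 5, 9, 11, 17, 19, 26, 10, 18, 16, 24, 25, 32, 33, 38, 19, 11, 26, 17, 34, 27, 39, 35, 5, 1, 9, 4, 16, 10, 24, 18, 39, 34, 35, 27, 33, 25, 38, 32, 2, 0, 6, 3, 13, 8, 22, 15, 14, 7, 20, 12, 28, 21, 36, 29, 8, 15, 13, 22, 23, 30, 31, 37, 0, 3, 2, 6, 7, 12, 14, 20, 30, 37, 23, 31, 21, 29, 28, 36, 4, 10, 9, 16, 11, 5, 17, 9, 34, 26, 27, 17, 33, 35, 25, 27, 24, 32, 16, 25, 7, 2, 12, 6, 3, 8, 6, 13, 22, 30, 13, 23, 31, 29, 23, 21, 28, 20, 21, 12]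
  lc := [14, 0, 15, 37, 36, 9, 12]
  ly := [9, 1, 3, 5, 7, 31, 41]
  rpe := [0, 0, 10, 10, 5, 5, 10, 11, 10, 5, 6, 5, 11, 10, 4, 1, 6, 5, 4, 1, 11, 11, 10, 12, 6, 6, 5, 7, 11, 11, 12, 12, 6, 6, 7, 7, 3, 2, 3, 2]
  rpi := [0, 0, 0, 1, 0, 1, 1, 0, 2, 1, 0, 2, 1, 2, 0, 0, 1, 2, 0, 0, 1, 2, 3, 2, 1, 2, 3, 2, 2, 3, 2, 3, 2, 3, 2, 3, 0, 0, 0, 0]
  rpb := [false, true, false, true, true, false, false, true, true, true, false, false, true, false, false, false, false, true, true, true, false, true, false, false, true, false, true, true, false, true, true, false, true, false, false, true, false, false, true, true]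
  kd := [0, 0, 0, 0, 0, 0, 0, 0, 0, 0, 2, 0, 0, 0, 0, 0, 1, 0, 0, 1, 0, 0, 0, 0, 0, 2, 2, 2, 2, 1, 0, 0, 1, 0, 1, 1, 3, 1, 1, 2, 2, 2, 2, 2, 2, 1, 1, 3, 1, 1, 0, 1, 0, 0, 0, 0, 0, 2, 2, 0, 0, 0, 0, 0, 1, 0, 1, 1, 3, 1, 0, 0, 0, 2, 2, 2, 2, 1, 1, 3, 1, 1, 1, 1, 3, 1, 1, 2, 2, 2, 2, 1, 2, 2, 1, 2, 3, 1, 1, 1, 3, 2, 2, 1, 2, 2, 1, 2, 3, 1, 2, 1, 2, 2, 1, 2, 3, 1, 2, 2, 2, 1, 2, 1, 2, 2, 1, 2, 3, 1]
  pae := [0, 0, 10, 13, 5, 8, 10, 20, 21, 5, 15, 16, 13, 10, 11, 12, 8, 5, 4, 1, 11, 24, 10, 22, 6, 19, 5, 17, 11, 14, 12, 14, 6, 9, 7, 9, 11, 12, 3, 2]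
  pai := [0, 0, 0, 0, 0, 0, 1, 0, 0, 1, 0, 0, 2, 2, 0, 0, 2, 2, 0, 0, 1, 1, 3, 1, 1, 1, 3, 1, 2, 2, 2, 1, 2, 2, 2, 1, 3, 3, 0, 0]
  pab := [false, true, false, true, true, false, false, false, true, true, true, false, true, false, false, true, false, true, true, true, false, false, false, true, true, true, true, false, false, true, true, true, true, false, false, false, false, true, true, true]

/-- masks of the regions of T7 -/
def T7R (e e' : ℕ) : ℕ :=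
  if e = 5 ∧ e' = 10 ∨ e = 10 ∧ e' = 5 then 1099511068372 else
  if e = 6 ∧ e' = 11 ∨ e = 11 ∧ e' = 6 then 348178890752 else
  if e = 7 ∧ e' = 12 ∨ e = 12 ∧ e' = 7 then 705520238592 else
  if e = 8 ∧ e' = 13 ∨ e = 13 ∧ e' = 8 then 1099511348072 else
  if e = 9 ∧ e' = 14 ∨ e = 14 ∧ e' = 9 then 1076426178560 else
  0

set_option maxRecDepth 100000 in
/-- the drawing with 7 vertices and 25 edges -/
def CT7 : CD (Fin 7) (Fin 25) (Fin 40) :=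
  T7.cd (by decide) (by decide) (by decide) (by decide) (by decide) (by decide) (by decide)
    (by decide) (by decide) (by decide) (by decide) (by decide) (by decide) (by decide) (by decide)
    (by decide)

set_option maxRecDepth 100000 in
theorem good_T7 : CT7.Good where
  loopless := by
    change ∀ e : Fin 25, T7.vert (e, false) ≠ T7.vert (e, true)
    decide
  simple := by
    refine ⟨fun x b b' => ?_, fun x y h h' => ?_⟩
    · exact (by decide : ∀ (e : Fin 25) (i : Fin (T7.len e)) (b b' : Bool),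
        T7.vert (e, b) ≠ T7.vert ((T7.cr ⟨e, i⟩).1, b')) x.1 x.2 b b'
    · rcases x with ⟨e, i⟩
      rcases y with ⟨e', j⟩
      dsimp only at h
      subst h
      rw [(by decide : ∀ (e : Fin 25) (i j : Fin (T7.len e)),
        (T7.cr ⟨e, i⟩).1 = (T7.cr ⟨e, j⟩).1 → i = j) e i j h']
  fan := by
    change ∀ e : Fin 25, (∃ w : Fin 7, ∀ i : Fin (T7.len e),
      T7.vert ((T7.cr ⟨e, i⟩).1, T7.toLeft ⟨e, i⟩) = w) ∨ ∃ w : Fin 7,
      ∀ i : Fin (T7.len e),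
      T7.vert ((T7.cr ⟨e, i⟩).1, !T7.toLeft ⟨e, i⟩) = w
    decide
  hom := by
    have key : ∀ e e' : Fin 25, e ≠ e' →
        (T7.vert (e, false) = T7.vert (e', false) ∧
          T7.vert (e, true) = T7.vert (e', true) ∨
        T7.vert (e, false) = T7.vert (e', true) ∧
          T7.vert (e, true) = T7.vert (e', false)) →
        (∀ (a : Fin 25) (i : Fin (T7.len a + 1)) (b : Bool),
          ((T7R e e').testBit (T7.face (⟨a, i⟩, b)) =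
            (T7R e e').testBit (T7.face (⟨a, i⟩, !b))) ↔ a ≠ e ∧ a ≠ e') ∧
        (∃ v : Fin 7, v ≠ T7.vert (e, false) ∧ v ≠ T7.vert (e, true) ∧
          (T7R e e').testBit (T7.loc v) = true) ∧
        ∃ v : Fin 7, v ≠ T7.vert (e, false) ∧ v ≠ T7.vert (e, true) ∧
          ¬ (T7R e e').testBit (T7.loc v) = true := by decide
    intro e e' hne hp
    obtain ⟨k1, k2, k3⟩ := key e e' hne (pair_cases hp)
    refine ⟨{f | (T7R e e').testBit f = true}, fun d => ?_, k2, k3⟩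
    rw [← k1 d.1.1 d.1.2 d.2]
    exact Bool.eq_iff_iff.symm

end Run7.h156.FPX
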