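import Pool.Agent.Q238.FP.Final

/-!
# Connected drawings
-/

set_option autoImplicit false

namespace Run7.h156.FPX

open Pool.Agent.Q238.FP

theorem pair_cases {V : Type} {a b c d : V} (h : ({a, b} : Set V) = {c, d}) :
    (a = c ∧ b = d) ∨ (a = d ∧ b = c) := Set.pair_eq_pair_iff.1 h

/-- A drawing whose planarization is connected and has no isolated vertices. -/
structure CD (V E F : Type) extends Data V E where
  face : toData.Dart → F
  loc : V → F
  face_next : ∀ d, face (toData.next d) = face d
  face_loc : ∀ x, ∃ y, vert y = vert x ∧ face (toData.out y) = loc (vert x)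
  face_surj : ∀ f, ∃ d, face d = f
  face_inj : ∀ d d', face d = face d' → (Quot.mk _ d : toData.Walk) = Quot.mk _ d'
  vsurj : ∀ v, ∃ x, vert x = v
  conn : ∀ A : Set F, (∀ d, face d ∈ A ↔ face (toData.rev d) ∈ A) → A = ∅ ∨ A = Set.univ
  count : 2 * Nat.card V + Nat.card (Σ e, Fin (len e)) + 2 * Nat.card F =
    2 * Nat.card (Σ e, Fin (len e + 1)) + 4

namespace CD

variable {V E F : Type} (G : CD V E F)

theorem card_walk : Nat.card G.Walk = Nat.card F := by
  have h : Function.Bijective (Quot.lift G.face (fun a b (h : G.next a = b) => by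
      rw [← h, G.face_next]) : G.Walk → F) := by
    constructor
    · intro a b
      induction a using Quot.ind with
      | mk a =>
        induction b using Quot.ind with
        | mk b => exact fun hab => G.face_inj a b hab
    · intro f
      obtain ⟨d, hd⟩ := G.face_surj f
      exact ⟨Quot.mk _ d, hd⟩
  exact Nat.card_congr (Equiv.ofBijective _ h)

theorem card_iso : Nat.card G.Iso = 0 := by
  have : IsEmpty G.Iso := ⟨fun v => by
    obtain ⟨x, hx⟩ := G.vsurj v.1
    exact v.2 x hx⟩
  exact Nat.card_of_isEmpty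

theorem comp_next (d : G.Dart) : (Quot.mk _ (G.next d) : G.Comp) = Quot.mk _ d :=
  (Quot.sound (r := fun d d' : G.Dart => G.next d = d' ∨ G.rev d = d') (Or.inl rfl)).symm

theorem comp_rev (d : G.Dart) : (Quot.mk _ (G.rev d) : G.Comp) = Quot.mk _ d :=
  (Quot.sound (r := fun d d' : G.Dart => G.next d = d' ∨ G.rev d = d') (Or.inr rfl)).symm

theorem comp_of_walk {d d' : G.Dart} (h : (Quot.mk _ d : G.Walk) = Quot.mk _ d') :
    (Quot.mk _ d : G.Comp) = Quot.mk _ d' := by
  have := congrArg (Quot.lift (fun d : G.Dart => (Quot.mk _ d : G.Comp))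
    (fun a b (hab : G.next a = b) => by
      rw [← hab, G.comp_next])) h
  exact this

theorem comp_eq (d d' : G.Dart) : (Quot.mk _ d : G.Comp) = Quot.mk _ d' := by
  set A : Set F := {f | ∃ x, G.face x = f ∧ (Quot.mk _ x : G.Comp) = Quot.mk _ d'} with hA
  have hmem : ∀ x, G.face x ∈ A ↔ (Quot.mk _ x : G.Comp) = Quot.mk _ d' := by
    intro x
    constructor
    · rintro ⟨y, hy, hy'⟩
      rw [← hy', G.comp_of_walk (G.face_inj y x hy)]
    · intro hx
      exact ⟨x, rfl, hx⟩
  rcases G.conn A (fun x => by rw [hmem, hmem, G.comp_rev]) with h | h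
  · have : G.face d' ∈ A := (hmem d').2 rfl
    rw [h] at this
    exact absurd this (Set.notMem_empty _)
  · exact (hmem d).1 (by rw [h]; exact Set.mem_univ _)

theorem card_comp [Nonempty V] : Nat.card G.Comp = 1 := by
  obtain ⟨x, -⟩ := G.vsurj (Classical.arbitrary V)
  have h1 : Nonempty G.Comp := ⟨Quot.mk _ (G.out x)⟩
  have h2 : Subsingleton G.Comp := ⟨fun a b => by
    induction a using Quot.ind with
    | mk a =>
      induction b using Quot.ind with
      | mk b => exact G.comp_eq a b⟩
  exact Nat.card_eq_one_iff_unique.2 ⟨h2, h1⟩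

/-- the drawing -/
def toDrawing [Nonempty V] : Drawing V E F where
  toData := G.toData
  face := G.face
  loc := G.loc
  face_next := G.face_next
  face_loc := G.face_loc
  face_surj := fun f => Or.inl (G.face_surj f)
  euler := by
    rw [G.card_walk, G.card_iso, G.card_comp]
    have := G.count
    omega
  card_face := by
    rw [G.card_walk, G.card_iso, G.card_comp]
  conn := G.conn

/-- The set `A` of faces changes exactly at the edges `e` and `e'`. -/
def Region (e e' : E) (A : Set F) : Prop :=
  ∀ d : G.Dart, (G.face d ∈ A ↔ G.face (G.rev d) ∈ A) ↔ d.1.1 ≠ e ∧ d.1.1 ≠ e'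

/-- parallel edges are non-homotopic -/
def NonHomotopic : Prop :=
  ∀ e e' : E, e ≠ e' → ({G.vert (e, false), G.vert (e, true)} : Set V) =
      {G.vert (e', false), G.vert (e', true)} →
    ∃ A, G.Region e e' A ∧
      (∃ v, v ≠ G.vert (e, false) ∧ v ≠ G.vert (e, true) ∧ G.loc v ∈ A) ∧
      ∃ v, v ≠ G.vert (e, false) ∧ v ≠ G.vert (e, true) ∧ G.loc v ∉ A

theorem nonHomotopic [Nonempty V] (h : G.NonHomotopic) : G.toDrawing.NonHomotopic := h

/-- going around a vertex -/
theorem rot_face (y : E × Bool) : G.face (G.out (G.rot y)) = G.face (G.rev (G.out y)) := by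
  rw [← G.next_rev_out, G.face_next]

/-- a drawing with all the properties -/
structure Good : Prop where
  loopless : G.Loopless
  simple : G.Simple
  fan : G.FanPlanar
  hom : G.NonHomotopic

end CD

/-- there is a tight drawing with `n` vertices and `k` edges -/
def Tight (n k : ℕ) : Prop :=
  ∃ (V E F : Type) (_ : Fintype V) (_ : Fintype E) (_ : Finite F) (G : CD V E F),
    Fintype.card V = n ∧ Fintype.card E = k ∧ G.Good ∧ ∃ e, G.len e = 0

end Run7.h156.FPX
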