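import Mathlib

/-!
# Merging two cycles of a permutation
-/

set_option autoImplicit false

namespace Run7.h156.FPX

theorem sc_map {α β : Type} (σ : Equiv.Perm α) (τ : Equiv.Perm β) (f : α → β)
    (h : ∀ x, τ.SameCycle (f x) (f (σ x))) {x y : α} (hxy : σ.SameCycle x y) :
    τ.SameCycle (f x) (f y) := by
  obtain ⟨m, rfl⟩ := hxy
  induction m with
  | zero => exact Equiv.Perm.SameCycle.refl _ _
  | succ m ih =>
    refine ih.trans ?_
    rw [add_comm, zpow_add, zpow_one, Equiv.Perm.mul_apply]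
    exact h _
  | pred m ih =>
    refine ih.trans ?_
    rw [sub_eq_add_neg, add_comm, zpow_add, zpow_neg_one, Equiv.Perm.mul_apply]
    have := h (σ⁻¹ ((σ ^ (-(m : ℤ))) x))
    rw [show σ (σ⁻¹ ((σ ^ (-(m : ℤ))) x)) = (σ ^ (-(m : ℤ))) x from σ.apply_symm_apply _] at this
    exact this.symm

theorem sc_inv {α β : Type} (σ : Equiv.Perm α) (f : α → β) (h : ∀ x, f (σ x) = f x) {x y : α}
    (hxy : σ.SameCycle x y) : f x = f y := by
  obtain ⟨m, rfl⟩ := hxy
  induction m with
  | zero => rfl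
  | succ m ih =>
    rw [ih, add_comm, zpow_add, zpow_one, Equiv.Perm.mul_apply, h]
  | pred m ih =>
    rw [ih, sub_eq_add_neg, add_comm, zpow_add, zpow_neg_one, Equiv.Perm.mul_apply]
    have := h (σ⁻¹ ((σ ^ (-(m : ℤ))) x))
    rw [show σ (σ⁻¹ ((σ ^ (-(m : ℤ))) x)) = (σ ^ (-(m : ℤ))) x from σ.apply_symm_apply _] at this
    exact this

/-- there is a first return -/
theorem exists_return {α : Type} [Finite α] (σ : Equiv.Perm α) (a : α) :
    ∃ N, 0 < N ∧ (σ ^ N) a = a ∧ ∀ k, 0 < k → k < N → (σ ^ k) a ≠ a := by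
  classical
  have hex : ∃ N, 0 < N ∧ (σ ^ N) a = a :=
    ⟨orderOf σ, (isOfFinOrder_of_finite σ).orderOf_pos, by rw [pow_orderOf_eq_one]; rfl⟩
  refine ⟨Nat.find hex, (Nat.find_spec hex).1, (Nat.find_spec hex).2, fun k hk hkN h => ?_⟩
  exact Nat.find_min hex hkN ⟨hk, h⟩

theorem merge {α : Type} [DecidableEq α] [Finite α] (σ : Equiv.Perm α) (a b : α) (h : ¬ σ.SameCycle a b) :
    (Equiv.swap a b * σ).SameCycle a b := by
  obtain ⟨N, hN, hN1, hN2⟩ := exists_return σ a
  have key : ∀ k, k < N → ((Equiv.swap a b * σ) ^ k) a = (σ ^ k) a := by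
    intro k
    induction k with
    | zero => intro _; rfl
    | succ k ih =>
      intro hk
      rw [pow_succ', Equiv.Perm.mul_apply, ih (by omega), pow_succ', Equiv.Perm.mul_apply,
        Equiv.Perm.mul_apply]
      have h1 : σ ((σ ^ k) a) ≠ a := by
        have := hN2 (k + 1) (by omega) hk
        rwa [pow_succ', Equiv.Perm.mul_apply] at this
      have h2 : σ ((σ ^ k) a) ≠ b := by
        intro hb
        apply h
        refine ⟨((k + 1 : ℕ) : ℤ), ?_⟩
        rw [zpow_natCast, pow_succ', Equiv.Perm.mul_apply, hb]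
      exact Equiv.swap_apply_of_ne_of_ne h1 h2
  refine ⟨(N : ℤ), ?_⟩
  obtain ⟨M, rfl⟩ : ∃ M, N = M + 1 := ⟨N - 1, by omega⟩
  rw [zpow_natCast, pow_succ', Equiv.Perm.mul_apply, key M (by omega), Equiv.Perm.mul_apply]
  have : σ ((σ ^ M) a) = a := by
    rwa [pow_succ', Equiv.Perm.mul_apply] at hN1
  rw [this, Equiv.swap_apply_left]

theorem merge_le {α : Type} [DecidableEq α] [Finite α] (σ : Equiv.Perm α) (a b : α) (h : ¬ σ.SameCycle a b)
    {x y : α} (hxy : σ.SameCycle x y) : (Equiv.swap a b * σ).SameCycle x y := by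
  refine sc_map σ _ id (fun x => ?_) hxy
  have h1 : (Equiv.swap a b * σ).SameCycle x ((Equiv.swap a b * σ) x) :=
    Equiv.Perm.sameCycle_apply_right.2 (Equiv.Perm.SameCycle.refl _ _)
  rw [Equiv.Perm.mul_apply] at h1
  have h2 := merge σ a b h
  by_cases ha : σ x = a
  · rw [ha, Equiv.swap_apply_left] at h1
    rw [id, id, ha]
    exact h1.trans h2.symm
  · by_cases hb : σ x = b
    · rw [hb, Equiv.swap_apply_right] at h1
      rw [id, id, hb]
      exact h1.trans h2
    · rw [Equiv.swap_apply_of_ne_of_ne ha hb] at h1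
      exact h1

/-- a function which is constant along a cycle except possibly at one place is constant there -/
theorem oneflip {α : Type} [Finite α] (σ : Equiv.Perm α) (a : α) (S : α → Prop)
    (h : ∀ x, σ.SameCycle a x → x ≠ a → (S (σ x) ↔ S x)) : S (σ a) ↔ S a := by
  obtain ⟨N, hN, hN1, hN2⟩ := exists_return σ a
  have key : ∀ k, k < N → (S (σ a) ↔ S ((σ ^ (k + 1)) a)) := by
    intro k
    induction k with
    | zero => intro _; rfl
    | succ k ih =>
      intro hk
      rw [ih (by omega), pow_succ' σ (k + 1), Equiv.Perm.mul_apply]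
      refine (h _ ⟨((k + 1 : ℕ) : ℤ), ?_⟩ (hN2 (k + 1) (by omega) hk)).symm
      rw [zpow_natCast]
  obtain ⟨M, rfl⟩ : ∃ M, N = M + 1 := ⟨N - 1, by omega⟩
  rw [key M (by omega), hN1]

end Run7.h156.FPX
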