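import Pool.Agent.Run7.h156.FPX.Conn
import Pool.Agent.Run7.h156.FPX.Perm

/-!
# Gluing two drawings along an uncrossed edge
-/

set_option autoImplicit false

namespace Run7.h156.FPX

open Pool.Agent.Q238.FP

noncomputable section

open Classical

namespace Glue

variable {V1 E1 F1 V2 E2 F2 : Type} (G1 : CD V1 E1 F1) (G2 : CD V2 E2 F2) (e1 : E1) (e2 : E2)

/-- the new vertices of the second drawing -/
abbrev W : Type := {v : V2 // v ≠ G2.vert (e2, false) ∧ v ≠ G2.vert (e2, true)}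

/-- the position of the vertices of the second drawing -/
def jv (v : V2) : V1 ⊕ W G2 e2 :=
  if h : v = G2.vert (e2, false) then Sum.inl (G1.vert (e1, false))
  else if h' : v = G2.vert (e2, true) then Sum.inl (G1.vert (e1, true))
  else Sum.inr ⟨v, h, h'⟩

theorem jv_false : jv G1 G2 e1 e2 (G2.vert (e2, false)) = Sum.inl (G1.vert (e1, false)) := by
  unfold jv
  rw [dif_pos rfl]

theorem jv_true (l2 : G2.vert (e2, false) ≠ G2.vert (e2, true)) :
    jv G1 G2 e1 e2 (G2.vert (e2, true)) = Sum.inl (G1.vert (e1, true)) := by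
  unfold jv
  rw [dif_neg l2.symm, dif_pos rfl]

theorem jv_other {v : V2} (h : v ≠ G2.vert (e2, false)) (h' : v ≠ G2.vert (e2, true)) :
    jv G1 G2 e1 e2 v = Sum.inr ⟨v, h, h'⟩ := by
  unfold jv
  rw [dif_neg h, dif_neg h']

theorem jv_inj (l1 : G1.vert (e1, false) ≠ G1.vert (e1, true)) {v w : V2}
    (h : jv G1 G2 e1 e2 v = jv G1 G2 e1 e2 w) : v = w := by
  unfold jv at h
  split_ifs at h with a b c d e f
  · rw [a, b]
  · exact absurd (Sum.inl.inj h) l1
  · exact absurd (Sum.inl.inj h).symm l1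
  · rw [d, f]
  · have := Sum.inr.inj h
    exact congrArg Subtype.val this

theorem jv_inl {v : V2} {u : V1} (h : jv G1 G2 e1 e2 v = Sum.inl u) :
    (v = G2.vert (e2, false) ∧ u = G1.vert (e1, false)) ∨
      (v = G2.vert (e2, true) ∧ u = G1.vert (e1, true)) := by
  unfold jv at h
  split_ifs at h with a b
  · exact Or.inl ⟨a, (Sum.inl.inj h).symm⟩
  · exact Or.inr ⟨b, (Sum.inl.inj h).symm⟩

def i1 (x : E1 × Bool) : (E1 ⊕ E2) × Bool := (Sum.inl x.1, x.2)
def i2 (x : E2 × Bool) : (E1 ⊕ E2) × Bool := (Sum.inr x.1, x.2)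

/-- the vertices of the edge ends -/
def vert : (E1 ⊕ E2) × Bool → V1 ⊕ W G2 e2
  | (Sum.inl e, b) => Sum.inl (G1.vert (e, b))
  | (Sum.inr e, b) => jv G1 G2 e1 e2 (G2.vert (e, b))

theorem vert_i1 (x : E1 × Bool) : vert G1 G2 e1 e2 (i1 x) = Sum.inl (G1.vert x) := rfl
theorem vert_i2 (x : E2 × Bool) : vert G1 G2 e1 e2 (i2 x) = jv G1 G2 e1 e2 (G2.vert x) := rfl

theorem ends_cases (x : (E1 ⊕ E2) × Bool) : (∃ y, x = i1 y) ∨ ∃ y, x = i2 y := by
  rcases x with ⟨e | e, b⟩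
  · exact Or.inl ⟨(e, b), rfl⟩
  · exact Or.inr ⟨(e, b), rfl⟩

theorem i1_inj {x y : E1 × Bool} (h : (i1 x : (E1 ⊕ E2) × Bool) = i1 y) : x = y := by
  rcases x with ⟨e, b⟩
  rcases y with ⟨e', b'⟩
  simp only [i1, Prod.mk.injEq, Sum.inl.injEq] at h
  exact Prod.ext h.1 h.2

theorem i2_inj {x y : E2 × Bool} (h : (i2 x : (E1 ⊕ E2) × Bool) = i2 y) : x = y := by
  rcases x with ⟨e, b⟩
  rcases y with ⟨e', b'⟩
  simp only [i2, Prod.mk.injEq, Sum.inr.injEq] at h
  exact Prod.ext h.1 h.2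

theorem i1_ne_i2 (x : E1 × Bool) (y : E2 × Bool) : (i1 x : (E1 ⊕ E2) × Bool) ≠ i2 y := by
  intro h
  simp only [i1, i2, Prod.mk.injEq] at h
  exact absurd h.1 (by simp)

/-- the two rotations side by side -/
def rot0 : Equiv.Perm ((E1 ⊕ E2) × Bool) where
  toFun := fun x => match x with
    | (Sum.inl e, b) => i1 (G1.rot (e, b))
    | (Sum.inr e, b) => i2 (G2.rot (e, b))
  invFun := fun x => match x with
    | (Sum.inl e, b) => i1 (G1.rot.symm (e, b))
    | (Sum.inr e, b) => i2 (G2.rot.symm (e, b))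
  left_inv := by
    rintro ⟨e | e, b⟩
    · change i1 (G1.rot.symm (G1.rot (e, b))) = _
      rw [Equiv.symm_apply_apply]
      rfl
    · change i2 (G2.rot.symm (G2.rot (e, b))) = _
      rw [Equiv.symm_apply_apply]
      rfl
  right_inv := by
    rintro ⟨e | e, b⟩
    · change i1 (G1.rot (G1.rot.symm (e, b))) = _
      rw [Equiv.apply_symm_apply]
      rfl
    · change i2 (G2.rot (G2.rot.symm (e, b))) = _
      rw [Equiv.apply_symm_apply]
      rfl

theorem rot0_i1 (x : E1 × Bool) : rot0 G1 G2 (i1 x) = i1 (G1.rot x) := rfl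
theorem rot0_i2 (x : E2 × Bool) : rot0 G1 G2 (i2 x) = i2 (G2.rot x) := rfl

/-- the new rotation -/
def rot : Equiv.Perm ((E1 ⊕ E2) × Bool) :=
  Equiv.swap (i1 (e1, true)) (i2 (e2, true)) *
    (rot0 G1 G2 * Equiv.swap (i1 (e1, false)) (i2 (e2, false)))

/-- the first step -/
def rot1 : Equiv.Perm ((E1 ⊕ E2) × Bool) :=
  rot0 G1 G2 * Equiv.swap (i1 (e1, false)) (i2 (e2, false))

theorem vert_rot0 (x : (E1 ⊕ E2) × Bool) :
    vert G1 G2 e1 e2 (rot0 G1 G2 x) = vert G1 G2 e1 e2 x := by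
  rcases ends_cases x with ⟨y, rfl⟩ | ⟨y, rfl⟩
  · rw [rot0_i1, vert_i1, vert_i1, G1.vert_rot]
  · rw [rot0_i2, vert_i2, vert_i2, G2.vert_rot]

theorem vert_swapF (x : (E1 ⊕ E2) × Bool) :
    vert G1 G2 e1 e2 (Equiv.swap (i1 (e1, false)) (i2 (e2, false)) x) = vert G1 G2 e1 e2 x := by
  by_cases h : x = i1 (e1, false)
  · rw [h, Equiv.swap_apply_left, vert_i1, vert_i2, jv_false]
  · by_cases h' : x = i2 (e2, false)
    · rw [h', Equiv.swap_apply_right, vert_i1, vert_i2, jv_false]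
    · rw [Equiv.swap_apply_of_ne_of_ne h h']

theorem vert_swapT (l2 : G2.vert (e2, false) ≠ G2.vert (e2, true)) (x : (E1 ⊕ E2) × Bool) :
    vert G1 G2 e1 e2 (Equiv.swap (i1 (e1, true)) (i2 (e2, true)) x) = vert G1 G2 e1 e2 x := by
  by_cases h : x = i1 (e1, true)
  · rw [h, Equiv.swap_apply_left, vert_i1, vert_i2, jv_true _ _ _ _ l2]
  · by_cases h' : x = i2 (e2, true)
    · rw [h', Equiv.swap_apply_right, vert_i1, vert_i2, jv_true _ _ _ _ l2]
    · rw [Equiv.swap_apply_of_ne_of_ne h h']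

theorem vert_rot (l2 : G2.vert (e2, false) ≠ G2.vert (e2, true)) (x : (E1 ⊕ E2) × Bool) :
    vert G1 G2 e1 e2 (rot G1 G2 e1 e2 x) = vert G1 G2 e1 e2 x := by
  unfold rot
  rw [Equiv.Perm.mul_apply, Equiv.Perm.mul_apply, vert_swapT _ _ _ _ l2, vert_rot0, vert_swapF]

theorem not_sc0 (a : E1 × Bool) (b : E2 × Bool) : ¬ (rot0 G1 G2).SameCycle (i1 a) (i2 b) := by
  intro h
  have := sc_inv (rot0 G1 G2) (fun x => x.1.isLeft) (fun x => by
    rcases ends_cases x with ⟨y, rfl⟩ | ⟨y, rfl⟩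
    · rfl
    · rfl) h
  simp [i1, i2] at this

theorem not_sc1 (l1 : G1.vert (e1, false) ≠ G1.vert (e1, true)) :
    ¬ (rot1 G1 G2 e1 e2).SameCycle (i1 (e1, true)) (i2 (e2, true)) := by
  intro h
  have := sc_inv (rot1 G1 G2 e1 e2) (fun x : (E1 ⊕ E2) × Bool => match x with
    | (Sum.inl e, b) => (Sum.inl (G1.vert (e, b)) : V1 ⊕ V2)
    | (Sum.inr e, b) => if G2.vert (e, b) = G2.vert (e2, false) then Sum.inl (G1.vert (e1, false))
      else Sum.inr (G2.vert (e, b))) (fun x => by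
    unfold rot1
    rw [Equiv.Perm.mul_apply]
    by_cases h : x = i1 (e1, false)
    · rw [h, Equiv.swap_apply_left, rot0_i2]
      change (if G2.vert (G2.rot (e2, false)) = G2.vert (e2, false) then _ else _) = _
      rw [if_pos (G2.vert_rot _)]
      rfl
    · by_cases h' : x = i2 (e2, false)
      · rw [h', Equiv.swap_apply_right, rot0_i1]
        change Sum.inl (G1.vert (G1.rot (e1, false))) =
          (if G2.vert (e2, false) = G2.vert (e2, false) then _ else _)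
        rw [if_pos rfl, G1.vert_rot]
      · rw [Equiv.swap_apply_of_ne_of_ne h h']
        rcases ends_cases x with ⟨y, rfl⟩ | ⟨y, rfl⟩
        · rw [rot0_i1]
          change Sum.inl (G1.vert (G1.rot y)) = Sum.inl (G1.vert y)
          rw [G1.vert_rot]
        · rw [rot0_i2]
          change (if G2.vert (G2.rot y) = G2.vert (e2, false) then _ else
            Sum.inr (G2.vert (G2.rot y))) = (if G2.vert y = G2.vert (e2, false) then _ else
            Sum.inr (G2.vert y))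
          rw [G2.vert_rot]) h
  change Sum.inl (G1.vert (e1, true)) = (if G2.vert (e2, true) = G2.vert (e2, false) then
    Sum.inl (G1.vert (e1, false)) else Sum.inr (G2.vert (e2, true))) at this
  split_ifs at this
  exact l1 (Sum.inl.inj this).symm

theorem rot1_eq : rot1 G1 G2 e1 e2 =
    Equiv.swap (i1 (G1.rot (e1, false))) (i2 (G2.rot (e2, false))) * rot0 G1 G2 := by
  unfold rot1
  rw [Equiv.mul_swap_eq_swap_mul, rot0_i1, rot0_i2]

variable [Finite E1] [Finite E2]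

theorem sc_rot (l1 : G1.vert (e1, false) ≠ G1.vert (e1, true)) {x y : (E1 ⊕ E2) × Bool}
    (h : (rot0 G1 G2).SameCycle x y) : (rot G1 G2 e1 e2).SameCycle x y := by
  refine merge_le _ _ _ (not_sc1 G1 G2 e1 e2 l1) ?_
  rw [rot1_eq]
  exact merge_le _ _ _ (not_sc0 G1 G2 _ _) h

theorem sc_T (l1 : G1.vert (e1, false) ≠ G1.vert (e1, true)) :
    (rot G1 G2 e1 e2).SameCycle (i1 (e1, true)) (i2 (e2, true)) :=
  merge _ _ _ (not_sc1 G1 G2 e1 e2 l1)

theorem sc_F (l1 : G1.vert (e1, false) ≠ G1.vert (e1, true)) :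
    (rot G1 G2 e1 e2).SameCycle (i1 (e1, false)) (i2 (e2, false)) := by
  have h1 : (rot G1 G2 e1 e2).SameCycle (i1 (G1.rot (e1, false))) (i2 (G2.rot (e2, false))) := by
    refine merge_le _ _ _ (not_sc1 G1 G2 e1 e2 l1) ?_
    rw [rot1_eq]
    exact merge _ _ _ (not_sc0 G1 G2 _ _)
  have h2 : (rot0 G1 G2).SameCycle (i1 (e1, false)) (i1 (G1.rot (e1, false))) := by
    rw [← rot0_i1 G1 G2]
    exact Equiv.Perm.sameCycle_apply_right.2 (Equiv.Perm.SameCycle.refl _ _)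
  have h3 : (rot0 G1 G2).SameCycle (i2 (e2, false)) (i2 (G2.rot (e2, false))) := by
    rw [← rot0_i2 G1 G2]
    exact Equiv.Perm.sameCycle_apply_right.2 (Equiv.Perm.SameCycle.refl _ _)
  exact (sc_rot G1 G2 e1 e2 l1 h2).trans (h1.trans (sc_rot G1 G2 e1 e2 l1 h3).symm)

theorem sc_one (l1 : G1.vert (e1, false) ≠ G1.vert (e1, true)) {x y : E1 × Bool}
    (h : G1.vert x = G1.vert y) : (rot G1 G2 e1 e2).SameCycle (i1 x) (i1 y) := by
  refine sc_rot G1 G2 e1 e2 l1 ?_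
  exact sc_map G1.rot _ i1 (fun z => by
    rw [← rot0_i1 G1 G2]
    exact Equiv.Perm.sameCycle_apply_right.2 (Equiv.Perm.SameCycle.refl _ _)) ((G1.rot_vert x y).2 h)

theorem sc_two (l1 : G1.vert (e1, false) ≠ G1.vert (e1, true)) {x y : E2 × Bool}
    (h : G2.vert x = G2.vert y) : (rot G1 G2 e1 e2).SameCycle (i2 x) (i2 y) := by
  refine sc_rot G1 G2 e1 e2 l1 ?_
  exact sc_map G2.rot _ i2 (fun z => by
    rw [← rot0_i2 G1 G2]
    exact Equiv.Perm.sameCycle_apply_right.2 (Equiv.Perm.SameCycle.refl _ _)) ((G2.rot_vert x y).2 h)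

theorem rot_vert (l1 : G1.vert (e1, false) ≠ G1.vert (e1, true))
    (l2 : G2.vert (e2, false) ≠ G2.vert (e2, true)) (x y : (E1 ⊕ E2) × Bool) :
    (rot G1 G2 e1 e2).SameCycle x y ↔ vert G1 G2 e1 e2 x = vert G1 G2 e1 e2 y := by
  constructor
  · exact fun h => sc_inv _ _ (vert_rot G1 G2 e1 e2 l2) h
  · intro h
    have mixed : ∀ (x : E1 × Bool) (y : E2 × Bool),
        vert G1 G2 e1 e2 (i1 x) = vert G1 G2 e1 e2 (i2 y) →
        (rot G1 G2 e1 e2).SameCycle (i1 x) (i2 y) := by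
      intro x y h
      rw [vert_i1, vert_i2] at h
      rcases jv_inl G1 G2 e1 e2 h.symm with ⟨h1, h2⟩ | ⟨h1, h2⟩
      · exact (sc_one G1 G2 e1 e2 l1 h2).trans ((sc_F G1 G2 e1 e2 l1).trans
          (sc_two G1 G2 e1 e2 l1 h1.symm))
      · exact (sc_one G1 G2 e1 e2 l1 h2).trans ((sc_T G1 G2 e1 e2 l1).trans
          (sc_two G1 G2 e1 e2 l1 h1.symm))
    rcases ends_cases x with ⟨x, rfl⟩ | ⟨x, rfl⟩ <;> rcases ends_cases y with ⟨y, rfl⟩ | ⟨y, rfl⟩
    · exact sc_one G1 G2 e1 e2 l1 (Sum.inl.inj h)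
    · exact mixed x y h
    · exact (mixed y x h.symm).symm
    · exact sc_two G1 G2 e1 e2 l1 (jv_inj G1 G2 e1 e2 l1 h)

end Glue

end

end Run7.h156.FPX
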