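import Pool.Agent.Run7.h156.FPX.Glue

/-!
# Gluing two drawings along an uncrossed edge: the data
-/

set_option autoImplicit false
set_option linter.unusedSectionVars false

namespace Run7.h156.FPX

open Pool.Agent.Q238.FP

noncomputable section

open Classical

namespace Glue

variable {V1 E1 F1 V2 E2 F2 : Type} (G1 : CD V1 E1 F1) (G2 : CD V2 E2 F2) (e1 : E1) (e2 : E2)

def len : E1 ⊕ E2 → ℕ
  | Sum.inl e => G1.len e
  | Sum.inr e => G2.len e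

def k1 (x : Σ e, Fin (G1.len e)) : Σ e, Fin (len G1 G2 e) := ⟨Sum.inl x.1, x.2⟩
def k2 (x : Σ e, Fin (G2.len e)) : Σ e, Fin (len G1 G2 e) := ⟨Sum.inr x.1, x.2⟩

def cr : (Σ e, Fin (len G1 G2 e)) → (Σ e, Fin (len G1 G2 e))
  | ⟨Sum.inl e, i⟩ => k1 G1 G2 (G1.cr ⟨e, i⟩)
  | ⟨Sum.inr e, i⟩ => k2 G1 G2 (G2.cr ⟨e, i⟩)

def toLeft : (Σ e, Fin (len G1 G2 e)) → Bool
  | ⟨Sum.inl e, i⟩ => G1.toLeft ⟨e, i⟩
  | ⟨Sum.inr e, i⟩ => G2.toLeft ⟨e, i⟩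

theorem cross_cases (x : Σ e, Fin (len G1 G2 e)) :
    (∃ y, x = k1 G1 G2 y) ∨ ∃ y, x = k2 G1 G2 y := by
  rcases x with ⟨e | e, i⟩
  · exact Or.inl ⟨⟨e, i⟩, rfl⟩
  · exact Or.inr ⟨⟨e, i⟩, rfl⟩

theorem cr_k1 (x : Σ e, Fin (G1.len e)) : cr G1 G2 (k1 G1 G2 x) = k1 G1 G2 (G1.cr x) := rfl
theorem cr_k2 (x : Σ e, Fin (G2.len e)) : cr G1 G2 (k2 G1 G2 x) = k2 G1 G2 (G2.cr x) := rfl

variable [Finite E1] [Finite E2]

/-- the data of the glued drawing -/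
def data (l1 : G1.vert (e1, false) ≠ G1.vert (e1, true))
    (l2 : G2.vert (e2, false) ≠ G2.vert (e2, true)) : Data (V1 ⊕ W G2 e2) (E1 ⊕ E2) where
  vert := vert G1 G2 e1 e2
  len := len G1 G2
  cr := cr G1 G2
  toLeft := toLeft G1 G2
  rot := rot G1 G2 e1 e2
  cr_cr := fun x => by
    rcases cross_cases G1 G2 x with ⟨y, rfl⟩ | ⟨y, rfl⟩
    · rw [cr_k1, cr_k1, G1.cr_cr]
    · rw [cr_k2, cr_k2, G2.cr_cr]
  toLeft_cr := fun x => by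
    rcases cross_cases G1 G2 x with ⟨y, rfl⟩ | ⟨y, rfl⟩
    · exact G1.toLeft_cr y
    · exact G2.toLeft_cr y
  rot_vert := rot_vert G1 G2 e1 e2 l1 l2

variable (l1 : G1.vert (e1, false) ≠ G1.vert (e1, true))
    (l2 : G2.vert (e2, false) ≠ G2.vert (e2, true)) (m1 : G1.len e1 = 0) (m2 : G2.len e2 = 0)

/-- the darts of the first drawing -/
def d1 (d : G1.Dart) : (data G1 G2 e1 e2 l1 l2).Dart := (⟨Sum.inl d.1.1, d.1.2⟩, d.2)
/-- the darts of the second drawing -/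
def d2 (d : G2.Dart) : (data G1 G2 e1 e2 l1 l2).Dart := (⟨Sum.inr d.1.1, d.1.2⟩, d.2)

/-- darts correspond -/
def nat : (data G1 G2 e1 e2 l1 l2).Dart ≃ G1.Dart ⊕ G2.Dart where
  toFun := fun d => match d with
    | (⟨Sum.inl e, i⟩, b) => Sum.inl (⟨e, i⟩, b)
    | (⟨Sum.inr e, i⟩, b) => Sum.inr (⟨e, i⟩, b)
  invFun := Sum.elim (d1 G1 G2 e1 e2 l1 l2) (d2 G1 G2 e1 e2 l1 l2)
  left_inv := by
    rintro ⟨⟨e | e, i⟩, b⟩
    · rfl
    · rfl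
  right_inv := by
    rintro (⟨⟨e, i⟩, b⟩ | ⟨⟨e, i⟩, b⟩)
    · rfl
    · rfl

/-- the dart of the edge `e1` with the other side on its left -/
def D1 : G1.Dart := G1.out (e1, true)
/-- the dart of the edge `e2` with the other side on its left -/
def D2 : G2.Dart := G2.out (e2, true)

/-- the home of a dart: the dart of one of the two drawings with the same face on its left -/
def hm : (data G1 G2 e1 e2 l1 l2).Dart ≃ G1.Dart ⊕ G2.Dart :=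
  (nat G1 G2 e1 e2 l1 l2).trans (Equiv.swap (Sum.inl (D1 G1 e1)) (Sum.inr (D2 G2 e2)))

theorem dart_cases (d : (data G1 G2 e1 e2 l1 l2).Dart) :
    (∃ x, d = d1 G1 G2 e1 e2 l1 l2 x) ∨ ∃ x, d = d2 G1 G2 e1 e2 l1 l2 x := by
  rcases d with ⟨⟨e | e, i⟩, b⟩
  · exact Or.inl ⟨(⟨e, i⟩, b), rfl⟩
  · exact Or.inr ⟨(⟨e, i⟩, b), rfl⟩

theorem hm_d1 {d : G1.Dart} (h : d ≠ D1 G1 e1) :
    hm G1 G2 e1 e2 l1 l2 (d1 G1 G2 e1 e2 l1 l2 d) = Sum.inl d :=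
  Equiv.swap_apply_of_ne_of_ne (a := Sum.inl (D1 G1 e1)) (b := Sum.inr (D2 G2 e2))
    (x := Sum.inl d) (fun h' => h (Sum.inl.inj h')) (fun h' => by cases h')

theorem hm_d2 {d : G2.Dart} (h : d ≠ D2 G2 e2) :
    hm G1 G2 e1 e2 l1 l2 (d2 G1 G2 e1 e2 l1 l2 d) = Sum.inr d :=
  Equiv.swap_apply_of_ne_of_ne (a := Sum.inl (D1 G1 e1)) (b := Sum.inr (D2 G2 e2))
    (x := Sum.inr d) (fun h' => by cases h') (fun h' => h (Sum.inr.inj h'))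

theorem hm_D1 : hm G1 G2 e1 e2 l1 l2 (d1 G1 G2 e1 e2 l1 l2 (D1 G1 e1)) = Sum.inr (D2 G2 e2) :=
  Equiv.swap_apply_left (Sum.inl (D1 G1 e1)) (Sum.inr (D2 G2 e2))

theorem hm_D2 : hm G1 G2 e1 e2 l1 l2 (d2 G1 G2 e1 e2 l1 l2 (D2 G2 e2)) = Sum.inl (D1 G1 e1) :=
  Equiv.swap_apply_right (Sum.inl (D1 G1 e1)) (Sum.inr (D2 G2 e2))

theorem out_i1 (x : E1 × Bool) : (data G1 G2 e1 e2 l1 l2).out (i1 x) =
    d1 G1 G2 e1 e2 l1 l2 (G1.out x) := rfl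
theorem out_i2 (x : E2 × Bool) : (data G1 G2 e1 e2 l1 l2).out (i2 x) =
    d2 G1 G2 e1 e2 l1 l2 (G2.out x) := rfl
theorem rev_d1 (x : G1.Dart) : (data G1 G2 e1 e2 l1 l2).rev (d1 G1 G2 e1 e2 l1 l2 x) =
    d1 G1 G2 e1 e2 l1 l2 (G1.rev x) := rfl
theorem rev_d2 (x : G2.Dart) : (data G1 G2 e1 e2 l1 l2).rev (d2 G1 G2 e1 e2 l1 l2 x) =
    d2 G1 G2 e1 e2 l1 l2 (G2.rev x) := rfl
theorem leave_k1 (x : Σ e, Fin (G1.len e)) (b : Bool) :
    (data G1 G2 e1 e2 l1 l2).leave (k1 G1 G2 x) b = d1 G1 G2 e1 e2 l1 l2 (G1.leave x b) := rfl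
theorem leave_k2 (x : Σ e, Fin (G2.len e)) (b : Bool) :
    (data G1 G2 e1 e2 l1 l2).leave (k2 G1 G2 x) b = d2 G1 G2 e1 e2 l1 l2 (G2.leave x b) := rfl
theorem arr_k1 (x : Σ e, Fin (G1.len e)) (b : Bool) :
    (data G1 G2 e1 e2 l1 l2).arr (k1 G1 G2 x) b = d1 G1 G2 e1 e2 l1 l2 (G1.arr x b) := rfl
theorem arr_k2 (x : Σ e, Fin (G2.len e)) (b : Bool) :
    (data G1 G2 e1 e2 l1 l2).arr (k2 G1 G2 x) b = d2 G1 G2 e1 e2 l1 l2 (G2.arr x b) := rfl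

include m1 in
theorem revD1 : G1.rev (G1.out (e1, false)) = D1 G1 e1 := by
  unfold D1
  simp only [Data.rev, Data.out]
  refine Prod.ext ?_ rfl
  refine Sigma.ext rfl (heq_of_eq (Fin.ext ?_))
  simp [m1]

include m2 in
theorem revD2 : G2.rev (G2.out (e2, false)) = D2 G2 e2 := by
  unfold D2
  simp only [Data.rev, Data.out]
  refine Prod.ext ?_ rfl
  refine Sigma.ext rfl (heq_of_eq (Fin.ext ?_))
  simp [m2]

include m1 in
theorem ne_D1 (x : Σ e, Fin (G1.len e)) (d : G1.Dart) (h : d.1.1 = x.1) : d ≠ D1 G1 e1 := by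
  intro h'
  have h2 : x.1 = e1 := by rw [← h, h']; rfl
  have h3 := Nat.lt_of_le_of_lt (Nat.zero_le _) x.2.2
  rw [h2, m1] at h3
  exact absurd h3 (Nat.not_lt_zero _)

include m2 in
theorem ne_D2 (x : Σ e, Fin (G2.len e)) (d : G2.Dart) (h : d.1.1 = x.1) : d ≠ D2 G2 e2 := by
  intro h'
  have h2 : x.1 = e2 := by rw [← h, h']; rfl
  have h3 := Nat.lt_of_le_of_lt (Nat.zero_le _) x.2.2
  rw [h2, m2] at h3
  exact absurd h3 (Nat.not_lt_zero _)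

theorem rot_F1 : rot G1 G2 e1 e2 (i1 (e1, false)) =
    Equiv.swap (i1 (e1, true)) (i2 (e2, true)) (i2 (G2.rot (e2, false))) := by
  unfold rot
  rw [Equiv.Perm.mul_apply, Equiv.Perm.mul_apply, Equiv.swap_apply_left, rot0_i2]

theorem rot_F2 : rot G1 G2 e1 e2 (i2 (e2, false)) =
    Equiv.swap (i1 (e1, true)) (i2 (e2, true)) (i1 (G1.rot (e1, false))) := by
  unfold rot
  rw [Equiv.Perm.mul_apply, Equiv.Perm.mul_apply, Equiv.swap_apply_right, rot0_i1]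

theorem rot_i1 {x : E1 × Bool} (h : x ≠ (e1, false)) : rot G1 G2 e1 e2 (i1 x) =
    Equiv.swap (i1 (e1, true)) (i2 (e2, true)) (i1 (G1.rot x)) := by
  unfold rot
  rw [Equiv.Perm.mul_apply, Equiv.Perm.mul_apply,
    Equiv.swap_apply_of_ne_of_ne (fun h' => h (i1_inj h')) (i1_ne_i2 _ _), rot0_i1]

theorem rot_i2 {x : E2 × Bool} (h : x ≠ (e2, false)) : rot G1 G2 e1 e2 (i2 x) =
    Equiv.swap (i1 (e1, true)) (i2 (e2, true)) (i2 (G2.rot x)) := by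
  unfold rot
  rw [Equiv.Perm.mul_apply, Equiv.Perm.mul_apply,
    Equiv.swap_apply_of_ne_of_ne (i1_ne_i2 _ _).symm (fun h' => h (i2_inj h')), rot0_i2]

theorem hm_out_swap1 (x : E1 × Bool) : hm G1 G2 e1 e2 l1 l2 ((data G1 G2 e1 e2 l1 l2).out
    (Equiv.swap (i1 (e1, true)) (i2 (e2, true)) (i1 x))) = Sum.inl (G1.out x) := by
  by_cases h : x = (e1, true)
  · rw [h, Equiv.swap_apply_left, out_i2]
    exact hm_D2 G1 G2 e1 e2 l1 l2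
  · rw [Equiv.swap_apply_of_ne_of_ne (fun h' => h (i1_inj h')) (i1_ne_i2 _ _), out_i1,
      hm_d1]
    exact fun h' => h (G1.out_inj h')

theorem hm_out_swap2 (x : E2 × Bool) : hm G1 G2 e1 e2 l1 l2 ((data G1 G2 e1 e2 l1 l2).out
    (Equiv.swap (i1 (e1, true)) (i2 (e2, true)) (i2 x))) = Sum.inr (G2.out x) := by
  by_cases h : x = (e2, true)
  · rw [h, Equiv.swap_apply_right, out_i1]
    exact hm_D1 G1 G2 e1 e2 l1 l2
  · rw [Equiv.swap_apply_of_ne_of_ne (i1_ne_i2 _ _).symm (fun h' => h (i2_inj h')), out_i2,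
      hm_d2]
    exact fun h' => h (G2.out_inj h')

include m1 m2 in
/-- the home map respects `next` -/
theorem hm_next (d : (data G1 G2 e1 e2 l1 l2).Dart) :
    hm G1 G2 e1 e2 l1 l2 ((data G1 G2 e1 e2 l1 l2).next d) =
      Sum.map G1.next G2.next (hm G1 G2 e1 e2 l1 l2 d) := by
  rcases (data G1 G2 e1 e2 l1 l2).cases_dart d with ⟨-, x, hx⟩ | ⟨-, hx⟩
  · rw [hx]
    rcases cross_cases G1 G2 x with ⟨y, rfl⟩ | ⟨y, rfl⟩
    · rw [Data.next_arr]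
      change hm G1 G2 e1 e2 l1 l2 ((data G1 G2 e1 e2 l1 l2).leave (k1 G1 G2 (G1.cr y))
        (d.2 == G1.toLeft y)) = _
      rw [leave_k1, arr_k1, hm_d1 G1 G2 e1 e2 l1 l2 (ne_D1 G1 e1 m1 (G1.cr y) _ rfl),
        hm_d1 G1 G2 e1 e2 l1 l2 (ne_D1 G1 e1 m1 y _ rfl), Sum.map_inl, Data.next_arr]
    · rw [Data.next_arr]
      change hm G1 G2 e1 e2 l1 l2 ((data G1 G2 e1 e2 l1 l2).leave (k2 G1 G2 (G2.cr y))
        (d.2 == G2.toLeft y)) = _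
      rw [leave_k2, arr_k2, hm_d2 G1 G2 e1 e2 l1 l2 (ne_D2 G2 e2 m2 (G2.cr y) _ rfl),
        hm_d2 G1 G2 e1 e2 l1 l2 (ne_D2 G2 e2 m2 y _ rfl), Sum.map_inr, Data.next_arr]
  · rw [hx, Data.next_rev_out]
    change hm G1 G2 e1 e2 l1 l2 ((data G1 G2 e1 e2 l1 l2).out (rot G1 G2 e1 e2 _)) = _
    generalize ((d.1.1, d.2) : (E1 ⊕ E2) × Bool) = x
    rcases ends_cases x with ⟨y, rfl⟩ | ⟨y, rfl⟩
    · by_cases h : y = (e1, false)
      · rw [h, rot_F1, hm_out_swap2, out_i1, rev_d1, revD1 G1 e1 m1, hm_D1, Sum.map_inr,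
          ← revD2 G2 e2 m2, Data.next_rev_out]
      · rw [rot_i1 G1 G2 e1 e2 h, hm_out_swap1, out_i1, rev_d1, hm_d1, Sum.map_inl,
          Data.next_rev_out]
        intro h'
        rw [← revD1 G1 e1 m1] at h'
        exact h (G1.out_inj (G1.rev_inj h'))
    · by_cases h : y = (e2, false)
      · rw [h, rot_F2, hm_out_swap1, out_i2, rev_d2, revD2 G2 e2 m2, hm_D2, Sum.map_inl,
          ← revD1 G1 e1 m1, Data.next_rev_out]
      · rw [rot_i2 G1 G2 e1 e2 h, hm_out_swap2, out_i2, rev_d2, hm_d2, Sum.map_inr,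
          Data.next_rev_out]
        intro h'
        rw [← revD2 G2 e2 m2] at h'
        exact h (G2.out_inj (G2.rev_inj h'))

end Glue

end

end Run7.h156.FPX
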