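import Pool.Agent.Run7.h156.FPX.Glue2

/-!
# Gluing two drawings along an uncrossed edge: the drawing
-/

set_option autoImplicit false
set_option linter.unusedSectionVars false

namespace Run7.h156.FPX

open Pool.Agent.Q238.FP

noncomputable section

open Classical

namespace CD

variable {V E F : Type} (G : CD V E F)

/-- A set of faces which changes at no edge except possibly `e` does not change at the first
segment of `e`. -/
theorem noflip [Finite E] (e : E) (hl : G.vert (e, false) ≠ G.vert (e, true)) (S : Set F)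
    (h : ∀ d : G.Dart, d.1.1 ≠ e → (G.face d ∈ S ↔ G.face (G.rev d) ∈ S)) :
    G.face (G.out (e, false)) ∈ S ↔ G.face (G.rev (G.out (e, false))) ∈ S := by
  have := oneflip G.rot (e, false) (fun y => G.face (G.out y) ∈ S) (fun x hx hne => by
    have hv := (G.rot_vert _ _).1 hx
    have hxe : x.1 ≠ e := by
      intro hxe
      rcases x with ⟨x, b⟩
      dsimp only at hxe
      subst hxe
      cases b
      · exact hne rfl
      · exact hl hv
    change G.face (G.out (G.rot x)) ∈ S ↔ G.face (G.out x) ∈ S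
    rw [G.rot_face]
    exact (h (G.out x) hxe).symm)
  change G.face (G.out (G.rot (e, false))) ∈ S ↔ G.face (G.out (e, false)) ∈ S at this
  rw [G.rot_face] at this
  exact this.symm

/-- around a vertex -/
theorem around (A : Set F) (w : V)
    (h : ∀ y, G.vert y = w → (G.face (G.out y) ∈ A ↔ G.face (G.rev (G.out y)) ∈ A))
    (y : E × Bool) (hy : G.vert y = w) : G.face (G.out y) ∈ A ↔ G.loc w ∈ A := by
  obtain ⟨y0, h0, h1⟩ := G.face_loc y
  rw [hy] at h0 h1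
  have hc : G.rot.SameCycle y0 y := (G.rot_vert _ _).2 (by rw [h0, hy])
  have := sc_inv G.rot (fun z => G.vert z = w → G.face (G.out z) ∈ A) (fun z => by
    rw [G.vert_rot, G.rot_face]
    by_cases hz : G.vert z = w
    · simp only [hz, forall_const]
      exact propext (h z hz).symm
    · simp only [hz, false_implies]) hc
  simp only [h0, hy, forall_const, h1] at this
  exact (iff_of_eq this).symm

end CD

namespace Glue

variable {V1 E1 F1 V2 E2 F2 : Type} (G1 : CD V1 E1 F1) (G2 : CD V2 E2 F2) (e1 : E1) (e2 : E2)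
  [Finite E1] [Finite E2]
  (l1 : G1.vert (e1, false) ≠ G1.vert (e1, true))
  (l2 : G2.vert (e2, false) ≠ G2.vert (e2, true)) (m1 : G1.len e1 = 0) (m2 : G2.len e2 = 0)

/-- the other dart of `e1` -/
def U1 : G1.Dart := G1.out (e1, false)
/-- the other dart of `e2` -/
def U2 : G2.Dart := G2.out (e2, false)

include m1 in
theorem rev_U1 : G1.rev (U1 G1 e1) = D1 G1 e1 := revD1 G1 e1 m1
include m2 in
theorem rev_U2 : G2.rev (U2 G2 e2) = D2 G2 e2 := revD2 G2 e2 m2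
include m1 in
theorem rev_D1 : G1.rev (D1 G1 e1) = U1 G1 e1 := by rw [← rev_U1 G1 e1 m1, G1.rev_rev]
include m2 in
theorem rev_D2 : G2.rev (D2 G2 e2) = U2 G2 e2 := by rw [← rev_U2 G2 e2 m2, G2.rev_rev]

theorem U1_ne : U1 G1 e1 ≠ D1 G1 e1 := by
  intro h
  have := congrArg (fun d : G1.Dart => d.2) h
  simp [U1, D1, Data.out] at this

theorem U2_ne : U2 G2 e2 ≠ D2 G2 e2 := by
  intro h
  have := congrArg (fun d : G2.Dart => d.2) h
  simp [U2, D2, Data.out] at this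

include m1 in
theorem edge1 (d : G1.Dart) (h : d.1.1 = e1) : d = D1 G1 e1 ∨ d = U1 G1 e1 := by
  rcases d with ⟨⟨e, i⟩, b⟩
  dsimp only at h
  subst h
  have hi : (i : ℕ) = 0 := by
    have := i.2
    omega
  cases b
  · left
    refine Prod.ext (Sigma.ext rfl (heq_of_eq (Fin.ext ?_))) rfl
    rw [hi]
    change 0 = G1.len e
    exact m1.symm
  · right
    refine Prod.ext (Sigma.ext rfl (heq_of_eq (Fin.ext ?_))) rfl
    rw [hi]
    rfl

include m2 in
theorem edge2 (d : G2.Dart) (h : d.1.1 = e2) : d = D2 G2 e2 ∨ d = U2 G2 e2 := by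
  rcases d with ⟨⟨e, i⟩, b⟩
  dsimp only at h
  subst h
  have hi : (i : ℕ) = 0 := by
    have := i.2
    omega
  cases b
  · left
    refine Prod.ext (Sigma.ext rfl (heq_of_eq (Fin.ext ?_))) rfl
    rw [hi]
    change 0 = G2.len e
    exact m2.symm
  · right
    refine Prod.ext (Sigma.ext rfl (heq_of_eq (Fin.ext ?_))) rfl
    rw [hi]
    rfl

/-- the faces -/
def face (d : (data G1 G2 e1 e2 l1 l2).Dart) : F1 ⊕ F2 :=
  Sum.map G1.face G2.face (hm G1 G2 e1 e2 l1 l2 d)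

theorem face_d1 {d : G1.Dart} (h : d ≠ D1 G1 e1) :
    face G1 G2 e1 e2 l1 l2 (d1 G1 G2 e1 e2 l1 l2 d) = Sum.inl (G1.face d) := by
  unfold face
  rw [hm_d1 G1 G2 e1 e2 l1 l2 h, Sum.map_inl]

theorem face_d2 {d : G2.Dart} (h : d ≠ D2 G2 e2) :
    face G1 G2 e1 e2 l1 l2 (d2 G1 G2 e1 e2 l1 l2 d) = Sum.inr (G2.face d) := by
  unfold face
  rw [hm_d2 G1 G2 e1 e2 l1 l2 h, Sum.map_inr]

theorem face_D1 : face G1 G2 e1 e2 l1 l2 (d1 G1 G2 e1 e2 l1 l2 (D1 G1 e1)) =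
    Sum.inr (G2.face (D2 G2 e2)) := by
  unfold face
  rw [hm_D1, Sum.map_inr]

theorem face_D2 : face G1 G2 e1 e2 l1 l2 (d2 G1 G2 e1 e2 l1 l2 (D2 G2 e2)) =
    Sum.inl (G1.face (D1 G1 e1)) := by
  unfold face
  rw [hm_D2, Sum.map_inl]

/-- the set of faces composed of two sets -/
def un (A1 : Set F1) (A2 : Set F2) : Set (F1 ⊕ F2) := {f | Sum.elim (· ∈ A1) (· ∈ A2) f}

theorem inl_un (A1 : Set F1) (A2 : Set F2) (f : F1) : Sum.inl f ∈ un A1 A2 ↔ f ∈ A1 := Iff.rfl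
theorem inr_un (A1 : Set F1) (A2 : Set F2) (f : F2) : Sum.inr f ∈ un A1 A2 ↔ f ∈ A2 := Iff.rfl

include m1 m2 in
/-- where a composed set changes -/
theorem region (A1 : Set F1) (A2 : Set F2) (P1 : E1 → Prop) (P2 : E2 → Prop)
    (hA1 : ∀ d : G1.Dart, d.1.1 ≠ e1 →
      ((G1.face d ∈ A1 ↔ G1.face (G1.rev d) ∈ A1) ↔ ¬ P1 d.1.1))
    (hA2 : ∀ d : G2.Dart, d.1.1 ≠ e2 →
      ((G2.face d ∈ A2 ↔ G2.face (G2.rev d) ∈ A2) ↔ ¬ P2 d.1.1))
    (hx1 : (G1.face (U1 G1 e1) ∈ A1 ↔ G2.face (D2 G2 e2) ∈ A2) ↔ ¬ P1 e1)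
    (hx2 : (G2.face (U2 G2 e2) ∈ A2 ↔ G1.face (D1 G1 e1) ∈ A1) ↔ ¬ P2 e2)
    (d : (data G1 G2 e1 e2 l1 l2).Dart) :
    (face G1 G2 e1 e2 l1 l2 d ∈ un A1 A2 ↔
      face G1 G2 e1 e2 l1 l2 ((data G1 G2 e1 e2 l1 l2).rev d) ∈ un A1 A2) ↔
      ¬ Sum.elim P1 P2 d.1.1 := by
  rcases dart_cases G1 G2 e1 e2 l1 l2 d with ⟨x, rfl⟩ | ⟨x, rfl⟩
  · rw [rev_d1]
    change _ ↔ ¬ P1 x.1.1
    by_cases hx : x.1.1 = e1
    · rcases edge1 G1 e1 m1 x hx with rfl | rfl
      · rw [rev_D1 G1 e1 m1, face_D1, face_d1 G1 G2 e1 e2 l1 l2 (U1_ne G1 e1), inl_un, inr_un,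
          hx, ← hx1]
        exact Iff.intro (fun h => h.symm) (fun h => h.symm)
      · rw [rev_U1 G1 e1 m1, face_D1, face_d1 G1 G2 e1 e2 l1 l2 (U1_ne G1 e1), inl_un, inr_un,
          hx, ← hx1]
    · rw [face_d1 G1 G2 e1 e2 l1 l2 (fun h => hx (by rw [h]; rfl)),
        face_d1 G1 G2 e1 e2 l1 l2 (fun h => hx (by
          have : (G1.rev x).1.1 = e1 := by rw [h]; rfl
          exact this)), inl_un, inl_un]
      exact hA1 x hx
  · rw [rev_d2]
    change _ ↔ ¬ P2 x.1.1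
    by_cases hx : x.1.1 = e2
    · rcases edge2 G2 e2 m2 x hx with rfl | rfl
      · rw [rev_D2 G2 e2 m2, face_D2, face_d2 G1 G2 e1 e2 l1 l2 (U2_ne G2 e2), inl_un, inr_un,
          hx, ← hx2]
        exact Iff.intro (fun h => h.symm) (fun h => h.symm)
      · rw [rev_U2 G2 e2 m2, face_D2, face_d2 G1 G2 e1 e2 l1 l2 (U2_ne G2 e2), inl_un, inr_un,
          hx, ← hx2]
    · rw [face_d2 G1 G2 e1 e2 l1 l2 (fun h => hx (by rw [h]; rfl)),
        face_d2 G1 G2 e1 e2 l1 l2 (fun h => hx (by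
          have : (G2.rev x).1.1 = e2 := by rw [h]; rfl
          exact this)), inr_un, inr_un]
      exact hA2 x hx

/-- faces at the vertices -/
def loc : V1 ⊕ W G2 e2 → F1 ⊕ F2 := Sum.map G1.loc (fun w => G2.loc w.1)

theorem face_loc1 (x : E1 × Bool) : ∃ y, vert G1 G2 e1 e2 y = Sum.inl (G1.vert x) ∧
    face G1 G2 e1 e2 l1 l2 ((data G1 G2 e1 e2 l1 l2).out y) = Sum.inl (G1.loc (G1.vert x)) := by
  obtain ⟨y, h1, h2⟩ := G1.face_loc x
  by_cases hy : y = (e1, true)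
  · refine ⟨i2 (e2, true), ?_, ?_⟩
    · rw [vert_i2, jv_true _ _ _ _ l2, ← h1, hy]
    · rw [out_i2, ← h2, hy]
      exact face_D2 G1 G2 e1 e2 l1 l2
  · refine ⟨i1 y, ?_, ?_⟩
    · rw [vert_i1, h1]
    · rw [out_i1, face_d1, h2]
      exact fun h => hy (G1.out_inj h)

theorem face_loc (x : (E1 ⊕ E2) × Bool) : ∃ y, vert G1 G2 e1 e2 y = vert G1 G2 e1 e2 x ∧
    face G1 G2 e1 e2 l1 l2 ((data G1 G2 e1 e2 l1 l2).out y) =
      loc G1 G2 e2 (vert G1 G2 e1 e2 x) := by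
  rcases ends_cases x with ⟨x, rfl⟩ | ⟨x, rfl⟩
  · exact face_loc1 G1 G2 e1 e2 l1 l2 x
  · rw [vert_i2]
    by_cases h1 : G2.vert x = G2.vert (e2, false)
    · rw [h1, jv_false]
      exact face_loc1 G1 G2 e1 e2 l1 l2 (e1, false)
    · by_cases h2 : G2.vert x = G2.vert (e2, true)
      · rw [h2, jv_true _ _ _ _ l2]
        exact face_loc1 G1 G2 e1 e2 l1 l2 (e1, true)
      · rw [jv_other _ _ _ _ h1 h2]
        obtain ⟨y, h3, h4⟩ := G2.face_loc x
        have hy : y ≠ (e2, true) := by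
          intro hy
          rw [← h3, hy] at h2
          exact h2 rfl
        refine ⟨i2 y, ?_, ?_⟩
        · rw [vert_i2, h3, jv_other _ _ _ _ h1 h2]
        · rw [out_i2, face_d2, h4]
          · rfl
          · exact fun h => hy (G2.out_inj h)

include m1 m2 in
theorem face_inj (d d' : (data G1 G2 e1 e2 l1 l2).Dart)
    (h : face G1 G2 e1 e2 l1 l2 d = face G1 G2 e1 e2 l1 l2 d') :
    (Quot.mk _ d : (data G1 G2 e1 e2 l1 l2).Walk) = Quot.mk _ d' := by
  have k1 : ∀ a b : G1.Dart, G1.face a = G1.face b →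
      (Quot.mk _ ((hm G1 G2 e1 e2 l1 l2).symm (Sum.inl a)) : (data G1 G2 e1 e2 l1 l2).Walk) =
        Quot.mk _ ((hm G1 G2 e1 e2 l1 l2).symm (Sum.inl b)) := by
    intro a b hab
    have := congrArg (Quot.lift (fun a => (Quot.mk _ ((hm G1 G2 e1 e2 l1 l2).symm (Sum.inl a)) :
      (data G1 G2 e1 e2 l1 l2).Walk)) (fun a b (h : G1.next a = b) => Quot.sound (by
        rw [← h, Equiv.eq_symm_apply, hm_next G1 G2 e1 e2 l1 l2 m1 m2, Equiv.apply_symm_apply,
          Sum.map_inl]))) (G1.face_inj a b hab)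
    exact this
  have k2 : ∀ a b : G2.Dart, G2.face a = G2.face b →
      (Quot.mk _ ((hm G1 G2 e1 e2 l1 l2).symm (Sum.inr a)) : (data G1 G2 e1 e2 l1 l2).Walk) =
        Quot.mk _ ((hm G1 G2 e1 e2 l1 l2).symm (Sum.inr b)) := by
    intro a b hab
    have := congrArg (Quot.lift (fun a => (Quot.mk _ ((hm G1 G2 e1 e2 l1 l2).symm (Sum.inr a)) :
      (data G1 G2 e1 e2 l1 l2).Walk)) (fun a b (h : G2.next a = b) => Quot.sound (by
        rw [← h, Equiv.eq_symm_apply, hm_next G1 G2 e1 e2 l1 l2 m1 m2, Equiv.apply_symm_apply,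
          Sum.map_inr]))) (G2.face_inj a b hab)
    exact this
  unfold face at h
  rw [← (hm G1 G2 e1 e2 l1 l2).symm_apply_apply d, ← (hm G1 G2 e1 e2 l1 l2).symm_apply_apply d']
  rcases ha : hm G1 G2 e1 e2 l1 l2 d with a | a <;> rcases hb : hm G1 G2 e1 e2 l1 l2 d' with b | b
    <;> rw [ha, hb] at h
  · exact k1 a b (Sum.inl.inj h)
  · cases h
  · cases h
  · exact k2 a b (Sum.inr.inj h)

include m1 m2 in
theorem conn (A : Set (F1 ⊕ F2)) (hA : ∀ d, face G1 G2 e1 e2 l1 l2 d ∈ A ↔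
    face G1 G2 e1 e2 l1 l2 ((data G1 G2 e1 e2 l1 l2).rev d) ∈ A) : A = ∅ ∨ A = Set.univ := by
  have hd1 : ∀ d : G1.Dart, d.1.1 ≠ e1 →
      (G1.face d ∈ Sum.inl ⁻¹' A ↔ G1.face (G1.rev d) ∈ Sum.inl ⁻¹' A) := by
    intro d hd
    have := hA (d1 G1 G2 e1 e2 l1 l2 d)
    rwa [rev_d1, face_d1 G1 G2 e1 e2 l1 l2 (fun h => hd (by rw [h]; rfl)),
        face_d1 G1 G2 e1 e2 l1 l2 (fun h => hd (by
          have : (G1.rev d).1.1 = e1 := by rw [h]; rfl
          exact this))] at this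
  have hd2 : ∀ d : G2.Dart, d.1.1 ≠ e2 →
      (G2.face d ∈ Sum.inr ⁻¹' A ↔ G2.face (G2.rev d) ∈ Sum.inr ⁻¹' A) := by
    intro d hd
    have := hA (d2 G1 G2 e1 e2 l1 l2 d)
    rwa [rev_d2, face_d2 G1 G2 e1 e2 l1 l2 (fun h => hd (by rw [h]; rfl)),
        face_d2 G1 G2 e1 e2 l1 l2 (fun h => hd (by
          have : (G2.rev d).1.1 = e2 := by rw [h]; rfl
          exact this))] at this
  have hn1 := G1.noflip e1 l1 _ hd1
  have hn2 := G2.noflip e2 l2 _ hd2
  have hc1 : ∀ d : G1.Dart,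
      (G1.face d ∈ Sum.inl ⁻¹' A ↔ G1.face (G1.rev d) ∈ Sum.inl ⁻¹' A) := by
    intro d
    by_cases hd : d.1.1 = e1
    · rcases edge1 G1 e1 m1 d hd with rfl | rfl
      · rw [rev_D1 G1 e1 m1, ← rev_U1 G1 e1 m1]
        exact hn1.symm
      · exact hn1
    · exact hd1 d hd
  have hc2 : ∀ d : G2.Dart,
      (G2.face d ∈ Sum.inr ⁻¹' A ↔ G2.face (G2.rev d) ∈ Sum.inr ⁻¹' A) := by
    intro d
    by_cases hd : d.1.1 = e2
    · rcases edge2 G2 e2 m2 d hd with rfl | rfl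
      · rw [rev_D2 G2 e2 m2, ← rev_U2 G2 e2 m2]
        exact hn2.symm
      · exact hn2
    · exact hd2 d hd
  have hl := hA (d1 G1 G2 e1 e2 l1 l2 (U1 G1 e1))
  rw [rev_d1, rev_U1 G1 e1 m1, face_D1, face_d1 G1 G2 e1 e2 l1 l2 (U1_ne G1 e1)] at hl
  rcases G1.conn _ hc1 with h1 | h1 <;> rcases G2.conn _ hc2 with h2 | h2
  · left
    refine Set.eq_empty_of_forall_notMem fun f hf => ?_
    rcases f with f | f
    · exact absurd (show f ∈ Sum.inl ⁻¹' A from hf) (by rw [h1]; exact Set.notMem_empty _)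
    · exact absurd (show f ∈ Sum.inr ⁻¹' A from hf) (by rw [h2]; exact Set.notMem_empty _)
  · exfalso
    have a1 : G1.face (U1 G1 e1) ∉ (Sum.inl ⁻¹' A : Set F1) := by
      rw [h1]; exact Set.notMem_empty _
    have a2 : G2.face (D2 G2 e2) ∈ (Sum.inr ⁻¹' A : Set F2) := by
      rw [h2]; exact Set.mem_univ _
    exact a1 (hl.2 a2)
  · exfalso
    have a1 : G1.face (U1 G1 e1) ∈ (Sum.inl ⁻¹' A : Set F1) := by
      rw [h1]; exact Set.mem_univ _
    have a2 : G2.face (D2 G2 e2) ∉ (Sum.inr ⁻¹' A : Set F2) := by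
      rw [h2]; exact Set.notMem_empty _
    exact a2 (hl.1 a1)
  · right
    refine Set.eq_univ_of_forall fun f => ?_
    rcases f with f | f
    · change f ∈ (Sum.inl ⁻¹' A : Set F1)
      rw [h1]; exact Set.mem_univ _
    · change f ∈ (Sum.inr ⁻¹' A : Set F2)
      rw [h2]; exact Set.mem_univ _

theorem card_W [Finite V2] : Nat.card (W G2 e2) + 2 = Nat.card V2 ∨
    G2.vert (e2, false) = G2.vert (e2, true) := by
  by_cases l2 : G2.vert (e2, false) = G2.vert (e2, true)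
  · exact Or.inr l2
  · left
    have : Fintype V2 := Fintype.ofFinite V2
    rw [Nat.card_eq_fintype_card, Nat.card_eq_fintype_card, Fintype.card_subtype]
    have h1 : (Finset.univ.filter
        (fun v : V2 => v ≠ G2.vert (e2, false) ∧ v ≠ G2.vert (e2, true))) =
        Finset.univ \ {G2.vert (e2, false), G2.vert (e2, true)} := by
      ext v
      simp
    rw [h1, Finset.card_sdiff_of_subset (Finset.subset_univ _), Finset.card_pair l2,
      Finset.card_univ]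
    have h2 := Finset.card_le_univ ({G2.vert (e2, false), G2.vert (e2, true)} : Finset V2)
    rw [Finset.card_pair l2] at h2
    omega

/-- crossing points -/
def crossEquiv : (Σ e, Fin (len G1 G2 e)) ≃ (Σ e, Fin (G1.len e)) ⊕ (Σ e, Fin (G2.len e)) where
  toFun := fun x => match x with
    | ⟨Sum.inl e, i⟩ => Sum.inl ⟨e, i⟩
    | ⟨Sum.inr e, i⟩ => Sum.inr ⟨e, i⟩
  invFun := Sum.elim (k1 G1 G2) (k2 G1 G2)
  left_inv := by
    rintro ⟨e | e, i⟩
    · rfl
    · rfl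
  right_inv := by
    rintro (⟨e, i⟩ | ⟨e, i⟩)
    · rfl
    · rfl

/-- segments -/
def segEquiv : (Σ e, Fin (len G1 G2 e + 1)) ≃
    (Σ e, Fin (G1.len e + 1)) ⊕ (Σ e, Fin (G2.len e + 1)) where
  toFun := fun x => match x with
    | ⟨Sum.inl e, i⟩ => Sum.inl ⟨e, i⟩
    | ⟨Sum.inr e, i⟩ => Sum.inr ⟨e, i⟩
  invFun := Sum.elim (fun x => ⟨Sum.inl x.1, x.2⟩) (fun x => ⟨Sum.inr x.1, x.2⟩)
  left_inv := by
    rintro ⟨e | e, i⟩
    · rfl
    · rfl
  right_inv := by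
    rintro (⟨e, i⟩ | ⟨e, i⟩)
    · rfl
    · rfl

/-- the glued drawing -/
def glue [Finite V1] [Finite V2] [Finite F1] [Finite F2] :
    CD (V1 ⊕ W G2 e2) (E1 ⊕ E2) (F1 ⊕ F2) where
  toData := data G1 G2 e1 e2 l1 l2
  face := face G1 G2 e1 e2 l1 l2
  loc := loc G1 G2 e2
  face_next := fun d => by
    unfold face
    rw [hm_next G1 G2 e1 e2 l1 l2 m1 m2]
    rcases hm G1 G2 e1 e2 l1 l2 d with x | x
    · rw [Sum.map_inl, Sum.map_inl, Sum.map_inl, G1.face_next]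
    · rw [Sum.map_inr, Sum.map_inr, Sum.map_inr, G2.face_next]
  face_loc := face_loc G1 G2 e1 e2 l1 l2
  face_surj := fun f => by
    rcases f with f | f
    · obtain ⟨d, hd⟩ := G1.face_surj f
      exact ⟨(hm G1 G2 e1 e2 l1 l2).symm (Sum.inl d), by
        unfold face
        rw [Equiv.apply_symm_apply, Sum.map_inl, hd]⟩
    · obtain ⟨d, hd⟩ := G2.face_surj f
      exact ⟨(hm G1 G2 e1 e2 l1 l2).symm (Sum.inr d), by
        unfold face
        rw [Equiv.apply_symm_apply, Sum.map_inr, hd]⟩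
  face_inj := face_inj G1 G2 e1 e2 l1 l2 m1 m2
  vsurj := fun v => by
    rcases v with v | v
    · obtain ⟨x, hx⟩ := G1.vsurj v
      exact ⟨i1 x, by rw [← hx]; rfl⟩
    · obtain ⟨x, hx⟩ := G2.vsurj v.1
      refine ⟨i2 x, ?_⟩
      change jv G1 G2 e1 e2 (G2.vert x) = _
      rw [hx, jv_other _ _ _ _ v.2.1 v.2.2]
  conn := conn G1 G2 e1 e2 l1 l2 m1 m2
  count := by
    change 2 * Nat.card (V1 ⊕ W G2 e2) + Nat.card (Σ e, Fin (len G1 G2 e)) +
      2 * Nat.card (F1 ⊕ F2) = 2 * Nat.card (Σ e, Fin (len G1 G2 e + 1)) + 4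
    rw [Nat.card_congr (crossEquiv G1 G2), Nat.card_congr (segEquiv G1 G2), Nat.card_sum,
      Nat.card_sum, Nat.card_sum, Nat.card_sum]
    have c1 := G1.count
    have c2 := G2.count
    have c3 := (card_W G2 e2).resolve_right l2
    omega

end Glue

end

end Run7.h156.FPX
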