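import Pool.Agent.Run7.h156.FPX.Glue3

/-!
# Gluing two drawings along an uncrossed edge: the properties
-/

set_option autoImplicit false
set_option linter.unusedSectionVars false

namespace Run7.h156.FPX

open Pool.Agent.Q238.FP

noncomputable section

open Classical

namespace Glue

variable {V1 E1 F1 V2 E2 F2 : Type} (G1 : CD V1 E1 F1) (G2 : CD V2 E2 F2) (e1 : E1) (e2 : E2)
  [Finite E1] [Finite E2] [Finite V1] [Finite V2] [Finite F1] [Finite F2]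
  (l1 : G1.vert (e1, false) ≠ G1.vert (e1, true))
  (l2 : G2.vert (e2, false) ≠ G2.vert (e2, true)) (m1 : G1.len e1 = 0) (m2 : G2.len e2 = 0)
  (g1 : G1.Good) (g2 : G2.Good)

include g1 g2 in
theorem loopless : (glue G1 G2 e1 e2 l1 l2 m1 m2).Loopless := by
  rintro (e | e) h
  · exact g1.loopless e (Sum.inl.inj h)
  · exact g2.loopless e (jv_inj G1 G2 e1 e2 l1 h)

include g1 g2 in
theorem simple : (glue G1 G2 e1 e2 l1 l2 m1 m2).Simple := by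
  constructor
  · intro x b b' h
    rcases cross_cases G1 G2 x with ⟨y, rfl⟩ | ⟨y, rfl⟩
    · exact g1.simple.1 y b b' (Sum.inl.inj h)
    · exact g2.simple.1 y b b' (jv_inj G1 G2 e1 e2 l1 h)
  · intro x y h h'
    rcases cross_cases G1 G2 x with ⟨x, rfl⟩ | ⟨x, rfl⟩ <;>
      rcases cross_cases G1 G2 y with ⟨y, rfl⟩ | ⟨y, rfl⟩
    · exact congrArg (k1 G1 G2) (g1.simple.2 x y (Sum.inl.inj h) (Sum.inl.inj h'))
    · cases h
    · cases h
    · exact congrArg (k2 G1 G2) (g2.simple.2 x y (Sum.inr.inj h) (Sum.inr.inj h'))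

include g1 g2 in
theorem fan : (glue G1 G2 e1 e2 l1 l2 m1 m2).FanPlanar := by
  rintro (e | e)
  · rcases g1.fan e with ⟨w, hw⟩ | ⟨w, hw⟩
    · exact Or.inl ⟨Sum.inl w, fun i => congrArg Sum.inl (hw i)⟩
    · exact Or.inr ⟨Sum.inl w, fun i => congrArg Sum.inl (hw i)⟩
  · rcases g2.fan e with ⟨w, hw⟩ | ⟨w, hw⟩
    · exact Or.inl ⟨jv G1 G2 e1 e2 w, fun i => congrArg (jv G1 G2 e1 e2) (hw i)⟩
    · exact Or.inr ⟨jv G1 G2 e1 e2 w, fun i => congrArg (jv G1 G2 e1 e2) (hw i)⟩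

include m1 in
theorem flip1 (A : Set F1) (e e' : E1) (h : G1.Region e e' A) :
    (G1.face (U1 G1 e1) ∈ A ↔ G1.face (D1 G1 e1) ∈ A) ↔ e1 ≠ e ∧ e1 ≠ e' := by
  have := h (U1 G1 e1)
  rwa [rev_U1 G1 e1 m1] at this

include m2 in
theorem flip2 (A : Set F2) (e e' : E2) (h : G2.Region e e' A) :
    (G2.face (U2 G2 e2) ∈ A ↔ G2.face (D2 G2 e2) ∈ A) ↔ e2 ≠ e ∧ e2 ≠ e' := by
  have := h (U2 G2 e2)
  rwa [rev_U2 G2 e2 m2] at this

include g1 in
theorem hom11 (e e' : E1) (hne : e ≠ e') (hp : ({vert G1 G2 e1 e2 (Sum.inl e, false),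
      vert G1 G2 e1 e2 (Sum.inl e, true)} : Set (V1 ⊕ W G2 e2)) =
      {vert G1 G2 e1 e2 (Sum.inl e', false), vert G1 G2 e1 e2 (Sum.inl e', true)}) :
    ∃ A, (glue G1 G2 e1 e2 l1 l2 m1 m2).Region (Sum.inl e) (Sum.inl e') A ∧
      (∃ v, v ≠ vert G1 G2 e1 e2 (Sum.inl e, false) ∧ v ≠ vert G1 G2 e1 e2 (Sum.inl e, true) ∧
        loc G1 G2 e2 v ∈ A) ∧
      ∃ v, v ≠ vert G1 G2 e1 e2 (Sum.inl e, false) ∧ v ≠ vert G1 G2 e1 e2 (Sum.inl e, true) ∧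
        loc G1 G2 e2 v ∉ A := by
  have hp' : ({G1.vert (e, false), G1.vert (e, true)} : Set V1) =
      {G1.vert (e', false), G1.vert (e', true)} := by
    rcases pair_cases hp with ⟨a, b⟩ | ⟨a, b⟩
    · rw [Sum.inl.inj a, Sum.inl.inj b]
    · rw [Sum.inl.inj a, Sum.inl.inj b, Set.pair_comm]
  obtain ⟨A1, hA, ⟨v, hv1, hv2, hv3⟩, ⟨w, hw1, hw2, hw3⟩⟩ := g1.hom e e' hne hp'
  have hf := flip1 G1 e1 m1 A1 e e' hA
  refine ⟨un A1 {f | G1.face (D1 G1 e1) ∈ A1}, fun d => ?_,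
    ⟨Sum.inl v, fun h => hv1 (Sum.inl.inj h), fun h => hv2 (Sum.inl.inj h), hv3⟩,
    ⟨Sum.inl w, fun h => hw1 (Sum.inl.inj h), fun h => hw2 (Sum.inl.inj h), hw3⟩⟩
  refine Iff.trans (region G1 G2 e1 e2 l1 l2 m1 m2 A1 {f | G1.face (D1 G1 e1) ∈ A1}
    (fun x => x = e ∨ x = e') (fun _ => False) (fun d _ => ?_) (fun d _ => ?_) ?_ ?_ d) ?_
  · rw [not_or]; exact hA d
  · simp
  · rw [not_or]; exact hf
  · simp
  · rcases d with ⟨⟨x | x, i⟩, b⟩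
    · simp [not_or]
    · simp

include g2 in
theorem hom22 (e e' : E2) (hne : e ≠ e') (hp : ({vert G1 G2 e1 e2 (Sum.inr e, false),
      vert G1 G2 e1 e2 (Sum.inr e, true)} : Set (V1 ⊕ W G2 e2)) =
      {vert G1 G2 e1 e2 (Sum.inr e', false), vert G1 G2 e1 e2 (Sum.inr e', true)}) :
    ∃ A, (glue G1 G2 e1 e2 l1 l2 m1 m2).Region (Sum.inr e) (Sum.inr e') A ∧
      (∃ v, v ≠ vert G1 G2 e1 e2 (Sum.inr e, false) ∧ v ≠ vert G1 G2 e1 e2 (Sum.inr e, true) ∧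
        loc G1 G2 e2 v ∈ A) ∧
      ∃ v, v ≠ vert G1 G2 e1 e2 (Sum.inr e, false) ∧ v ≠ vert G1 G2 e1 e2 (Sum.inr e, true) ∧
        loc G1 G2 e2 v ∉ A := by
  have hp' : ({G2.vert (e, false), G2.vert (e, true)} : Set V2) =
      {G2.vert (e', false), G2.vert (e', true)} := by
    rcases pair_cases hp with ⟨a, b⟩ | ⟨a, b⟩
    · rw [jv_inj G1 G2 e1 e2 l1 a, jv_inj G1 G2 e1 e2 l1 b]
    · rw [jv_inj G1 G2 e1 e2 l1 a, jv_inj G1 G2 e1 e2 l1 b, Set.pair_comm]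
  obtain ⟨A2, hA, ⟨v, hv1, hv2, hv3⟩, ⟨w, hw1, hw2, hw3⟩⟩ := g2.hom e e' hne hp'
  have hf := flip2 G2 e2 m2 A2 e e' hA
  -- membership of the vertices
  have key : ∀ v : V2, v ≠ G2.vert (e, false) → v ≠ G2.vert (e, true) →
      (loc G1 G2 e2 (jv G1 G2 e1 e2 v) ∈ un {f : F1 | G2.face (D2 G2 e2) ∈ A2} A2 ↔
        G2.loc v ∈ A2) := by
    intro v hv1 hv2
    have har : ∀ y, G2.vert y = v → (G2.face (G2.out y) ∈ A2 ↔
        G2.face (G2.rev (G2.out y)) ∈ A2) := by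
      intro y hy
      rw [hA]
      have hm : v ∉ ({G2.vert (e, false), G2.vert (e, true)} : Set V2) := by
        rintro (h | h)
        · exact hv1 h
        · exact hv2 h
      constructor
      · intro hye
        apply hm
        rcases y with ⟨y, b⟩
        change y = e at hye
        subst hye
        cases b
        · exact Or.inl hy.symm
        · exact Or.inr hy.symm
      · intro hye
        apply hm
        rw [hp']
        rcases y with ⟨y, b⟩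
        change y = e' at hye
        subst hye
        cases b
        · exact Or.inl hy.symm
        · exact Or.inr hy.symm
    by_cases c1 : v = G2.vert (e2, false)
    · have h1 := G2.around A2 v har (e2, false) c1.symm
      have h2 := har (e2, false) c1.symm
      rw [c1, jv_false, ← c1, ← h1, h2]
      change G2.face (D2 G2 e2) ∈ A2 ↔ _
      rw [← revD2 G2 e2 m2]
    · by_cases c2 : v = G2.vert (e2, true)
      · have h1 := G2.around A2 v har (e2, true) c2.symm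
        rw [c2, jv_true _ _ _ _ l2, ← c2, ← h1]
        exact Iff.rfl
      · rw [jv_other _ _ _ _ c1 c2]
        exact Iff.rfl
  refine ⟨un {f : F1 | G2.face (D2 G2 e2) ∈ A2} A2, fun d => ?_,
    ⟨jv G1 G2 e1 e2 v, fun h => hv1 (jv_inj G1 G2 e1 e2 l1 h),
      fun h => hv2 (jv_inj G1 G2 e1 e2 l1 h), (key v hv1 hv2).2 hv3⟩,
    ⟨jv G1 G2 e1 e2 w, fun h => hw1 (jv_inj G1 G2 e1 e2 l1 h),
      fun h => hw2 (jv_inj G1 G2 e1 e2 l1 h), fun h => hw3 ((key w hw1 hw2).1 h)⟩⟩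
  refine Iff.trans (region G1 G2 e1 e2 l1 l2 m1 m2 {f : F1 | G2.face (D2 G2 e2) ∈ A2} A2
    (fun _ => False) (fun x => x = e ∨ x = e') (fun d _ => ?_) (fun d _ => ?_) ?_ ?_ d) ?_
  · simp
  · rw [not_or]; exact hA d
  · simp
  · rw [not_or]; exact hf
  · rcases d with ⟨⟨x | x, i⟩, b⟩
    · simp
    · simp [not_or]

/-- the sets for `e` and the uncrossed edge `e0` -/
theorem half {V E F : Type} [Finite E] (G : CD V E F) (e0 : E) (m : G.len e0 = 0) (g : G.Good)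
    (e : E) (hp : ({G.vert (e, false), G.vert (e, true)} : Set V) =
      {G.vert (e0, false), G.vert (e0, true)}) (hne : e ≠ e0) :
    ∃ A : Set F, (∀ d : G.Dart, d.1.1 ≠ e0 →
      ((G.face d ∈ A ↔ G.face (G.rev d) ∈ A) ↔ ¬ d.1.1 = e)) ∧
      (G.face (U1 G e0) ∈ A ↔ ¬ G.face (D1 G e0) ∈ A) ∧
      (∃ v, v ≠ G.vert (e0, false) ∧ v ≠ G.vert (e0, true) ∧ G.loc v ∈ A) ∧
      ∃ v, v ≠ G.vert (e0, false) ∧ v ≠ G.vert (e0, true) ∧ G.loc v ∉ A := by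
  obtain ⟨A, hA, ⟨v, hv1, hv2, hv3⟩, ⟨w, hw1, hw2, hw3⟩⟩ := g.hom e e0 hne hp
  have key : ∀ v : V, v ≠ G.vert (e, false) → v ≠ G.vert (e, true) →
      v ≠ G.vert (e0, false) ∧ v ≠ G.vert (e0, true) := by
    intro v h1 h2
    have hm : v ∉ ({G.vert (e, false), G.vert (e, true)} : Set V) := by
      rintro (h | h)
      · exact h1 h
      · exact h2 h
    rw [hp] at hm
    exact ⟨fun h => hm (Or.inl h), fun h => hm (Or.inr h)⟩
  refine ⟨A, fun d hd => ?_, ?_, ⟨v, (key v hv1 hv2).1, (key v hv1 hv2).2, hv3⟩,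
    ⟨w, (key w hw1 hw2).1, (key w hw1 hw2).2, hw3⟩⟩
  · rw [hA]
    exact ⟨fun h => h.1, fun h => ⟨h, hd⟩⟩
  · have := hA (U1 G e0)
    rw [rev_U1 G e0 m] at this
    have h2 : ¬ (G.face (U1 G e0) ∈ A ↔ G.face (D1 G e0) ∈ A) := by
      rw [this]
      exact fun h => h.2 rfl
    by_cases ha : G.face (U1 G e0) ∈ A <;> by_cases hb : G.face (D1 G e0) ∈ A
    · exact absurd (iff_of_true ha hb) h2
    · exact iff_of_true ha hb
    · exact iff_of_false ha (not_not.2 hb)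
    · exact absurd (iff_of_false ha hb) h2

include g1 g2 in
theorem hom12 (n1 : ∃ a, a ≠ G1.vert (e1, false) ∧ a ≠ G1.vert (e1, true))
    (n2 : ∃ a, a ≠ G2.vert (e2, false) ∧ a ≠ G2.vert (e2, true)) (e : E1) (e' : E2)
    (hp : ({vert G1 G2 e1 e2 (Sum.inl e, false),
      vert G1 G2 e1 e2 (Sum.inl e, true)} : Set (V1 ⊕ W G2 e2)) =
      {vert G1 G2 e1 e2 (Sum.inr e', false), vert G1 G2 e1 e2 (Sum.inr e', true)}) :
    ∃ A, (glue G1 G2 e1 e2 l1 l2 m1 m2).Region (Sum.inl e) (Sum.inr e') A ∧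
      (∃ v, v ≠ vert G1 G2 e1 e2 (Sum.inl e, false) ∧ v ≠ vert G1 G2 e1 e2 (Sum.inl e, true) ∧
        loc G1 G2 e2 v ∈ A) ∧
      ∃ v, v ≠ vert G1 G2 e1 e2 (Sum.inl e, false) ∧ v ≠ vert G1 G2 e1 e2 (Sum.inl e, true) ∧
        loc G1 G2 e2 v ∉ A := by
  -- the ends
  have hq : ({G1.vert (e, false), G1.vert (e, true)} : Set V1) =
        {G1.vert (e1, false), G1.vert (e1, true)} ∧
      ({G2.vert (e', false), G2.vert (e', true)} : Set V2) =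
        {G2.vert (e2, false), G2.vert (e2, true)} := by
    have hl := g1.loopless e
    have hl' := g2.loopless e'
    rcases pair_cases hp with ⟨a, b⟩ | ⟨a, b⟩ <;>
      rcases jv_inl G1 G2 e1 e2 a.symm with ⟨c1, c2⟩ | ⟨c1, c2⟩ <;>
      rcases jv_inl G1 G2 e1 e2 b.symm with ⟨c3, c4⟩ | ⟨c3, c4⟩
    · exact absurd (c1.trans c3.symm) hl'
    · rw [c1, c2, c3, c4]; exact ⟨rfl, rfl⟩
    · rw [c1, c2, c3, c4]; exact ⟨Set.pair_comm _ _, Set.pair_comm _ _⟩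
    · exact absurd (c1.trans c3.symm) hl'
    · exact absurd (c1.trans c3.symm) hl'.symm
    · rw [c1, c2, c3, c4]; exact ⟨rfl, Set.pair_comm _ _⟩
    · rw [c1, c2, c3, c4]; exact ⟨Set.pair_comm _ _, rfl⟩
    · exact absurd (c1.trans c3.symm) hl'.symm
  obtain ⟨hq1, hq2⟩ := hq
  -- it suffices to find sets and vertices
  have key : ∀ (A1 : Set F1) (A2 : Set F2),
      (∀ d : G1.Dart, d.1.1 ≠ e1 →
        ((G1.face d ∈ A1 ↔ G1.face (G1.rev d) ∈ A1) ↔ ¬ d.1.1 = e)) →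
      (∀ d : G2.Dart, d.1.1 ≠ e2 →
        ((G2.face d ∈ A2 ↔ G2.face (G2.rev d) ∈ A2) ↔ ¬ d.1.1 = e')) →
      ((G1.face (U1 G1 e1) ∈ A1 ↔ G2.face (D2 G2 e2) ∈ A2) ↔ ¬ e1 = e) →
      ((G2.face (U2 G2 e2) ∈ A2 ↔ G1.face (D1 G1 e1) ∈ A1) ↔ ¬ e2 = e') →
      (glue G1 G2 e1 e2 l1 l2 m1 m2).Region (Sum.inl e) (Sum.inr e') (un A1 A2) := by
    intro A1 A2 h1 h2 h3 h4 d
    refine Iff.trans (region G1 G2 e1 e2 l1 l2 m1 m2 A1 A2 (fun x => x = e) (fun x => x = e')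
      h1 h2 h3 h4 d) ?_
    rcases d with ⟨⟨x | x, i⟩, b⟩
    · simp
    · simp
  have vin1 : ∀ v : V1, v ≠ G1.vert (e1, false) → v ≠ G1.vert (e1, true) →
      (Sum.inl v : V1 ⊕ W G2 e2) ≠ vert G1 G2 e1 e2 (Sum.inl e, false) ∧
      (Sum.inl v : V1 ⊕ W G2 e2) ≠ vert G1 G2 e1 e2 (Sum.inl e, true) := by
    intro v h1 h2
    have hm : v ∉ ({G1.vert (e, false), G1.vert (e, true)} : Set V1) := by
      rw [hq1]
      rintro (h | h)
      · exact h1 h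
      · exact h2 h
    exact ⟨fun h => hm (Or.inl (Sum.inl.inj h)), fun h => hm (Or.inr (Sum.inl.inj h))⟩
  have vin2 : ∀ w : W G2 e2,
      (Sum.inr w : V1 ⊕ W G2 e2) ≠ vert G1 G2 e1 e2 (Sum.inl e, false) ∧
      (Sum.inr w : V1 ⊕ W G2 e2) ≠ vert G1 G2 e1 e2 (Sum.inl e, true) :=
    fun w => ⟨(fun h => by cases h), (fun h => by cases h)⟩
  by_cases c1 : e = e1
  · by_cases c2 : e' = e2
    · obtain ⟨a, ha1, ha2⟩ := n1
      obtain ⟨b, hb1, hb2⟩ := n2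
      refine ⟨un Set.univ ∅, key _ _ (fun d hd => ?_) (fun d hd => ?_) ?_ ?_,
        ⟨Sum.inl a, (vin1 a ha1 ha2).1, (vin1 a ha1 ha2).2, ?_⟩,
        ⟨Sum.inr ⟨b, hb1, hb2⟩, (vin2 _).1, (vin2 _).2, ?_⟩⟩
      · rw [c1]; simpa using hd
      · rw [c2]; simpa using hd
      · simp [c1]
      · simp [c2]
      · exact Set.mem_univ (G1.loc a)
      · exact Set.notMem_empty (G2.loc b)
    · obtain ⟨A2, hA1, hA2, ⟨v, hv1, hv2, hv3⟩, ⟨w, hw1, hw2, hw3⟩⟩ :=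
        half G2 e2 m2 g2 e' hq2 c2
      refine ⟨un {f | G2.face (U2 G2 e2) ∈ A2} A2, key _ _ (fun d hd => ?_) hA1 ?_ ?_,
        ⟨Sum.inr ⟨v, hv1, hv2⟩, (vin2 _).1, (vin2 _).2, hv3⟩,
        ⟨Sum.inr ⟨w, hw1, hw2⟩, (vin2 _).1, (vin2 _).2, hw3⟩⟩
      · rw [c1]; simpa using hd
      · change (G2.face (U1 G2 e2) ∈ A2 ↔ G2.face (D1 G2 e2) ∈ A2) ↔ _
        rw [hA2, c1]
        simp
      · change (G2.face (U2 G2 e2) ∈ A2 ↔ G2.face (U2 G2 e2) ∈ A2) ↔ _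
        exact iff_of_true Iff.rfl (fun h => c2 h.symm)
  · obtain ⟨A1, hA1, hA2, ⟨v, hv1, hv2, hv3⟩, ⟨w, hw1, hw2, hw3⟩⟩ :=
        half G1 e1 m1 g1 e hq1 c1
    by_cases c2 : e' = e2
    · refine ⟨un A1 {f | G1.face (U1 G1 e1) ∈ A1}, key _ _ hA1 (fun d hd => ?_) ?_ ?_,
        ⟨Sum.inl v, (vin1 v hv1 hv2).1, (vin1 v hv1 hv2).2, hv3⟩,
        ⟨Sum.inl w, (vin1 w hw1 hw2).1, (vin1 w hw1 hw2).2, hw3⟩⟩
      · rw [c2]; simpa using hd
      · change (G1.face (U1 G1 e1) ∈ A1 ↔ G1.face (U1 G1 e1) ∈ A1) ↔ _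
        exact iff_of_true Iff.rfl (fun h => c1 h.symm)
      · change (G1.face (U1 G1 e1) ∈ A1 ↔ G1.face (D1 G1 e1) ∈ A1) ↔ _
        rw [hA2, c2]
        simp
    · obtain ⟨A2, hB1, hB2, -, -⟩ := half G2 e2 m2 g2 e' hq2 c2
      change G2.face (U2 G2 e2) ∈ A2 ↔ ¬ G2.face (D2 G2 e2) ∈ A2 at hB2
      by_cases hc : G1.face (U1 G1 e1) ∈ A1 ↔ G2.face (D2 G2 e2) ∈ A2
      · refine ⟨un A1 A2, key _ _ hA1 hB1 (iff_of_true hc (fun h => c1 h.symm))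
          (iff_of_true ?_ (fun h => c2 h.symm)),
          ⟨Sum.inl v, (vin1 v hv1 hv2).1, (vin1 v hv1 hv2).2, hv3⟩,
          ⟨Sum.inl w, (vin1 w hw1 hw2).1, (vin1 w hw1 hw2).2, hw3⟩⟩
        rw [hB2, ← hc, hA2, not_not]
      · refine ⟨un A1 A2ᶜ, key _ _ hA1 (fun d hd => ?_)
          (iff_of_true ?_ (fun h => c1 h.symm))
          (iff_of_true ?_ (fun h => c2 h.symm)),
          ⟨Sum.inl v, (vin1 v hv1 hv2).1, (vin1 v hv1 hv2).2, hv3⟩,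
          ⟨Sum.inl w, (vin1 w hw1 hw2).1, (vin1 w hw1 hw2).2, hw3⟩⟩
        · rw [Set.mem_compl_iff, Set.mem_compl_iff, not_iff_not]
          exact hB1 d hd
        · rw [Set.mem_compl_iff]
          tauto
        · rw [Set.mem_compl_iff]
          tauto

include g1 g2 in
theorem hom (n1 : ∃ a, a ≠ G1.vert (e1, false) ∧ a ≠ G1.vert (e1, true))
    (n2 : ∃ a, a ≠ G2.vert (e2, false) ∧ a ≠ G2.vert (e2, true)) :
    (glue G1 G2 e1 e2 l1 l2 m1 m2).NonHomotopic := by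
  rintro (e | e) (e' | e') hne hp
  · exact hom11 G1 G2 e1 e2 l1 l2 m1 m2 g1 e e' (fun h => hne (congrArg Sum.inl h)) hp
  · exact hom12 G1 G2 e1 e2 l1 l2 m1 m2 g1 g2 n1 n2 e e' hp
  · obtain ⟨A, hA, ⟨v, hv1, hv2, hv3⟩, ⟨w, hw1, hw2, hw3⟩⟩ :=
      hom12 G1 G2 e1 e2 l1 l2 m1 m2 g1 g2 n1 n2 e' e hp.symm
    have hsw : ∀ v : V1 ⊕ W G2 e2, v ≠ vert G1 G2 e1 e2 (Sum.inl e', false) →
        v ≠ vert G1 G2 e1 e2 (Sum.inl e', true) →
        v ≠ vert G1 G2 e1 e2 (Sum.inr e, false) ∧ v ≠ vert G1 G2 e1 e2 (Sum.inr e, true) := by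
      intro v h1 h2
      have hm : v ∉ ({vert G1 G2 e1 e2 (Sum.inl e', false),
          vert G1 G2 e1 e2 (Sum.inl e', true)} : Set (V1 ⊕ W G2 e2)) := by
        rintro (h | h)
        · exact h1 h
        · exact h2 h
      have hp' : ({vert G1 G2 e1 e2 (Sum.inr e, false),
          vert G1 G2 e1 e2 (Sum.inr e, true)} : Set (V1 ⊕ W G2 e2)) =
          {vert G1 G2 e1 e2 (Sum.inl e', false), vert G1 G2 e1 e2 (Sum.inl e', true)} := hp
      rw [← hp'] at hm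
      exact ⟨fun h => hm (Or.inl h), fun h => hm (Or.inr h)⟩
    refine ⟨A, fun d => (hA d).trans and_comm,
      ⟨v, (hsw v hv1 hv2).1, (hsw v hv1 hv2).2, hv3⟩,
      ⟨w, (hsw w hw1 hw2).1, (hsw w hw1 hw2).2, hw3⟩⟩
  · exact hom22 G1 G2 e1 e2 l1 l2 m1 m2 g2 e e' (fun h => hne (congrArg Sum.inr h)) hp

end Glue

theorem third {V : Type} [Fintype V] (h : 3 ≤ Fintype.card V) (a b : V) :
    ∃ c, c ≠ a ∧ c ≠ b := by
  by_contra hc
  push Not at hc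
  have : (Finset.univ : Finset V) ⊆ {a, b} := by
    intro c _
    simp only [Finset.mem_insert, Finset.mem_singleton]
    by_cases hca : c = a
    · exact Or.inl hca
    · exact Or.inr (hc c hca)
  have h4 := Finset.card_le_card this
  have h5 := Finset.card_le_two (a := a) (b := b)
  rw [Finset.card_univ] at h4
  omega

/-- gluing -/
theorem Tight.glue {n k n' k' : ℕ} (hn : 3 ≤ n) (hn' : 3 ≤ n') (h : Tight n k)
    (h' : Tight n' k') : Tight (n + n' - 2) (k + k') := by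
  obtain ⟨V1, E1, F1, _, _, _, G1, hV1, hE1, g1, e1, m1⟩ := h
  obtain ⟨V2, E2, F2, _, _, _, G2, hV2, hE2, g2, e2, m2⟩ := h'
  have l1 := g1.loopless e1
  have l2 := g2.loopless e2
  have n1 := third (by omega : 3 ≤ Fintype.card V1) (G1.vert (e1, false)) (G1.vert (e1, true))
  have n2 := third (by omega : 3 ≤ Fintype.card V2) (G2.vert (e2, false)) (G2.vert (e2, true))
  refine ⟨V1 ⊕ Glue.W G2 e2, E1 ⊕ E2, F1 ⊕ F2, inferInstance, inferInstance, inferInstance,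
    Glue.glue G1 G2 e1 e2 l1 l2 m1 m2, ?_, ?_,
    ⟨Glue.loopless G1 G2 e1 e2 l1 l2 m1 m2 g1 g2, Glue.simple G1 G2 e1 e2 l1 l2 m1 m2 g1 g2,
      Glue.fan G1 G2 e1 e2 l1 l2 m1 m2 g1 g2, Glue.hom G1 G2 e1 e2 l1 l2 m1 m2 g1 g2 n1 n2⟩,
    Sum.inl e1, m1⟩
  · have c3 := (Glue.card_W G2 e2).resolve_right l2
    rw [← Nat.card_eq_fintype_card, Nat.card_sum, Nat.card_eq_fintype_card, hV1]
    rw [Nat.card_eq_fintype_card (α := V2), hV2] at c3
    omega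
  · rw [Fintype.card_sum, hE1, hE2]

end

end Run7.h156.FPX
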