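import Pool.Agent.Run7.h156.FPX.Upper
import Pool.Agent.Run7.h156.FPX.BaseT3
import Pool.Agent.Run7.h156.FPX.BaseT4
import Pool.Agent.Run7.h156.FPX.BaseT5
import Pool.Agent.Run7.h156.FPX.BaseT6
import Pool.Agent.Run7.h156.FPX.BaseT7

/-!
# The maximum number of edges
-/

set_option autoImplicit false

namespace Run7.h156.FPX

open Pool.Agent.Q238.FP

theorem tight3 : Tight 3 3 :=
  ⟨Fin 3, Fin 3, Fin 2, inferInstance, inferInstance, inferInstance, CT3, Fintype.card_fin _,
    Fintype.card_fin _, good_T3, 0, rfl⟩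

theorem tight4 : Tight 4 8 :=
  ⟨Fin 4, Fin 8, Fin 8, inferInstance, inferInstance, inferInstance, CT4, Fintype.card_fin _,
    Fintype.card_fin _, good_T4, 0, rfl⟩

theorem tight5 : Tight 5 15 :=
  ⟨Fin 5, Fin 15, Fin 22, inferInstance, inferInstance, inferInstance, CT5, Fintype.card_fin _,
    Fintype.card_fin _, good_T5, 0, rfl⟩

theorem tight6 : Tight 6 20 :=
  ⟨Fin 6, Fin 20, Fin 31, inferInstance, inferInstance, inferInstance, CT6, Fintype.card_fin _,
    Fintype.card_fin _, good_T6, 0, rfl⟩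

theorem tight7 : Tight 7 25 :=
  ⟨Fin 7, Fin 25, Fin 40, inferInstance, inferInstance, inferInstance, CT7, Fintype.card_fin _,
    Fintype.card_fin _, good_T7, 0, rfl⟩

theorem tight (n : ℕ) (hn : 5 ≤ n) : Tight n (5 * n - 10) := by
  induction n using Nat.strong_induction_on with
  | _ n ih =>
    by_cases h5 : n = 5
    · subst h5; exact tight5
    by_cases h6 : n = 6
    · subst h6; exact tight6
    by_cases h7 : n = 7
    · subst h7; exact tight7
    have h := (ih (n - 3) (by omega) (by omega)).glue (by omega) (by omega) tight5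
    have e1 : n - 3 + 5 - 2 = n := by omega
    have e2 : 5 * (n - 3) - 10 + 15 = 5 * n - 10 := by omega
    rwa [e1, e2] at h

theorem Tight.drawing {n k : ℕ} (hn : 0 < n) (h : Tight n k) :
    ∃ (V E F : Type) (_ : Fintype V) (_ : Fintype E) (_ : Finite F) (G : Drawing V E F),
      Fintype.card V = n ∧ Fintype.card E = k ∧ G.Loopless ∧ G.Simple ∧ G.FanPlanar ∧
        G.NonHomotopic := by
  obtain ⟨V, E, F, _, _, _, G, hV, hE, g, -⟩ := h
  have : Nonempty V := Fintype.card_pos_iff.1 (by omega)
  exact ⟨V, E, F, inferInstance, inferInstance, inferInstance, G.toDrawing, hV, hE, g.loopless,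
    g.simple, g.fan, g.hom⟩

end Run7.h156.FPX
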