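import Pool.Agent.Run7.h156.FPX.Glue4

/-!
# Drawings with three and with four vertices
-/

set_option autoImplicit false

namespace Run7.h156.FPX

open Pool.Agent.Q238.FP

theorem q1 {a b c a' b' c' : Prop} (h1 : ¬ (a ↔ a')) (h2 : ¬ (b ↔ b')) (h3 : c ↔ c') :
    ((a ↔ b) ↔ c) ↔ ((a' ↔ b') ↔ c') := by tauto
theorem q2 {a b c a' b' c' : Prop} (h1 : ¬ (a ↔ a')) (h2 : b ↔ b') (h3 : ¬ (c ↔ c')) :
    ((a ↔ b) ↔ c) ↔ ((a' ↔ b') ↔ c') := by tauto
theorem q3 {a b c a' b' c' : Prop} (h1 : a ↔ a') (h2 : ¬ (b ↔ b')) (h3 : ¬ (c ↔ c')) :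
    ((a ↔ b) ↔ c) ↔ ((a' ↔ b') ↔ c') := by tauto
theorem q4 {a b c a' b' c' : Prop} (h1 : a ↔ a') (h2 : b ↔ b') (h3 : c ↔ c') :
    ((a ↔ b) ↔ c) ↔ ((a' ↔ b') ↔ c') := by tauto
theorem q5 {a b c a' b' c' : Prop} (h1 : a ↔ ¬ a') (h2 : b ↔ ¬ b') (h3 : c ↔ ¬ c')
    (h4 : ¬ ((a ↔ b) ↔ c)) (h5 : ¬ ((a' ↔ b') ↔ c')) : False := by tauto
theorem q6 {a b c a' b' c' : Prop} (h1 : a ↔ ¬ a') (h2 : b ↔ ¬ b') (h3 : c ↔ ¬ c')
    (h4 : (a ↔ b) ↔ c) (h5 : (a' ↔ b') ↔ c') : False := by tauto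
theorem q7 {a b a' b' s t : Prop} (h1 : b ↔ t) (h2 : b' ↔ t) :
    ((a ↔ ¬ s) ∧ (b ↔ ¬ t)) ↔ ((a' ↔ ¬ s) ∧ (b' ↔ ¬ t)) := by tauto
theorem q8 {a b a' b' s t : Prop} (h1 : a ↔ s) (h2 : a' ↔ s) :
    ((a ↔ ¬ s) ∧ (b ↔ ¬ t)) ↔ ((a' ↔ ¬ s) ∧ (b' ↔ ¬ t)) := by tauto

section

variable {V E F : Type} (G : Drawing V E F)

theorem rot_face (y : E × Bool) : G.face (G.out (G.rot y)) = G.face (G.rev (G.out y)) := by
  rw [← G.next_rev_out, G.face_next]

/-- around a vertex -/
theorem around (A : Set F) (w : V)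
    (h : ∀ y, G.vert y = w → (G.face (G.out y) ∈ A ↔ G.face (G.rev (G.out y)) ∈ A))
    (y : E × Bool) (hy : G.vert y = w) : G.face (G.out y) ∈ A ↔ G.loc w ∈ A := by
  obtain ⟨y0, h0, h1⟩ := G.face_loc y
  rw [hy] at h0 h1
  have hc : G.rot.SameCycle y0 y := (G.rot_vert _ _).2 (by rw [h0, hy])
  have := sc_inv G.rot (fun z => G.vert z = w → G.face (G.out z) ∈ A) (fun z => by
    rw [G.vert_rot, rot_face G]
    by_cases hz : G.vert z = w
    · simp only [hz, forall_const]
      exact propext (h z hz).symm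
    · simp only [hz, false_implies]) hc
  simp only [h0, hy, forall_const, h1] at this
  exact (iff_of_eq this).symm

/-- along an edge -/
theorem along (A : Set F) (g : E)
    (h1 : ∀ d : G.Dart, d.1.1 = g → (G.face d ∈ A ↔ G.face (G.rev d) ∈ A))
    (h2 : ∀ x : Σ e, Fin (G.len e), x.1 = g → ∀ d : G.Dart, d.1.1 = (G.cr x).1 →
      (G.face d ∈ A ↔ G.face (G.rev d) ∈ A)) (y : E × Bool) (hy : y.1 = g) (d : G.Dart)
    (hd : d.1.1 = g) : G.face d ∈ A ↔ G.face (G.out y) ∈ A := by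
  have step : ∀ (x : Σ e, Fin (G.len e)) (b : Bool), x.1 = g →
      (G.face (G.leave x b) ∈ A ↔ G.face (G.arr x b) ∈ A) := by
    intro x b hx
    have hs := G.straight x b
    rw [← hs, G.face_next, ← G.face_next (G.arr x b)]
    refine (h2 x hx (G.next (G.arr x b)) ?_).symm
    rw [G.next_arr]
    rfl
  have key : ∀ m : ℕ, ∀ d : G.Dart, d.1.1 = g → (d.1.2 : ℕ) = m →
      (G.face d ∈ A ↔ G.face (G.out (g, false)) ∈ A) := by
    intro m
    induction m with
    | zero =>
      rintro ⟨⟨e, i⟩, b⟩ hd hi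
      dsimp only at hd hi
      subst hd
      have hi' : i = 0 := Fin.ext hi
      subst hi'
      cases b
      · exact h1 (⟨e, 0⟩, false) rfl
      · exact Iff.rfl
    | succ m ih =>
      rintro ⟨⟨e, i⟩, b⟩ hd hi
      dsimp only at hd hi
      subst hd
      have hlt : m < G.len e := by
        have := i.2
        omega
      have hi' : i = (⟨m, hlt⟩ : Fin (G.len e)).succ := Fin.ext hi
      subst hi'
      have e1 := step ⟨e, ⟨m, hlt⟩⟩ true rfl
      rw [G.leave_true, G.arr_true] at e1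
      have e2 := ih (⟨e, (⟨m, hlt⟩ : Fin (G.len e)).castSucc⟩, true) rfl rfl
      cases b
      · have e3 := h1 (⟨e, (⟨m, hlt⟩ : Fin (G.len e)).succ⟩, false) rfl
        exact e3.trans (e1.trans e2)
      · exact e1.trans e2
  rw [key _ d hd rfl]
  rcases y with ⟨y, b⟩
  dsimp only at hy
  subst hy
  exact (key _ (G.out (y, b)) rfl rfl).symm

variable (hl : G.Loopless) (hs : G.Simple) (hh : G.NonHomotopic)

/-- parallel edges -/
def Par (e e' : E) : Prop :=
  ({G.vert (e, false), G.vert (e, true)} : Set V) = {G.vert (e', false), G.vert (e', true)}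

theorem par_mem {e e' : E} (h : Par G e e') (v : V) :
    (v = G.vert (e, false) ∨ v = G.vert (e, true)) ↔
      (v = G.vert (e', false) ∨ v = G.vert (e', true)) := by
  have : v ∈ ({G.vert (e, false), G.vert (e, true)} : Set V) ↔
      v ∈ ({G.vert (e', false), G.vert (e', true)} : Set V) := by rw [h]
  exact this

include hh in
/-- the region of two parallel edges, when only two further vertices exist -/
theorem sep {e e' : E} (hne : e ≠ e') (hp : Par G e e') (c d : V)
    (hcd : ∀ v, v ≠ G.vert (e, false) → v ≠ G.vert (e, true) → v = c ∨ v = d) :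
    ∃ A, G.Region e e' A ∧ (G.loc c ∈ A ↔ ¬ G.loc d ∈ A) := by
  obtain ⟨A, hA, ⟨v, hv1, hv2, hv3⟩, ⟨w, hw1, hw2, hw3⟩⟩ := hh e e' hne hp
  refine ⟨A, hA, ?_⟩
  rcases hcd v hv1 hv2 with rfl | rfl <;> rcases hcd w hw1 hw2 with rfl | rfl
  · exact absurd hv3 hw3
  · exact iff_of_true hv3 hw3
  · exact iff_of_false hw3 (not_not.2 hv3)
  · exact absurd hv3 hw3

include hh in
/-- no three parallel edges -/
theorem no_three {e1 e2 e3 : E} (h12 : e1 ≠ e2) (h13 : e1 ≠ e3) (h23 : e2 ≠ e3)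
    (p12 : Par G e1 e2) (p13 : Par G e1 e3) (c d : V)
    (hcd : ∀ v, v ≠ G.vert (e1, false) → v ≠ G.vert (e1, true) → v = c ∨ v = d) : False := by
  have p23 : Par G e2 e3 := Eq.trans (Eq.symm p12) p13
  have hcd2 : ∀ v, v ≠ G.vert (e2, false) → v ≠ G.vert (e2, true) → v = c ∨ v = d := by
    intro v a b
    have := (par_mem G p12 v).not.2 (by tauto)
    exact hcd v (by tauto) (by tauto)
  obtain ⟨A, hA, sA⟩ := sep G hh h12 p12 c d hcd
  obtain ⟨B, hB, sB⟩ := sep G hh h13 p13 c d hcd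
  obtain ⟨C, hC, sC⟩ := sep G hh h23 p23 c d hcd2
  rcases G.conn {f | (f ∈ A ↔ f ∈ B) ↔ f ∈ C} (fun x => by
    have a := hA x
    have b := hB x
    have c := hC x
    simp only [Set.mem_setOf_eq]
    by_cases x1 : x.1.1 = e1
    · have x2 : x.1.1 ≠ e2 := fun h => h12 (x1.symm.trans h)
      have x3 : x.1.1 ≠ e3 := fun h => h13 (x1.symm.trans h)
      exact q1 (fun h => (a.1 h).1 x1) (fun h => (b.1 h).1 x1) (c.2 ⟨x2, x3⟩)
    · by_cases x2 : x.1.1 = e2
      · have x3 : x.1.1 ≠ e3 := fun h => h23 (x2.symm.trans h)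
        exact q2 (fun h => (a.1 h).2 x2) (b.2 ⟨x1, x3⟩) (fun h => (c.1 h).1 x2)
      · by_cases x3 : x.1.1 = e3
        · exact q3 (a.2 ⟨x1, x2⟩) (fun h => (b.1 h).2 x3) (fun h => (c.1 h).2 x3)
        · exact q4 (a.2 ⟨x1, x2⟩) (b.2 ⟨x1, x3⟩) (c.2 ⟨x2, x3⟩)) with h | h
  · have h1 : G.loc c ∉ {f | (f ∈ A ↔ f ∈ B) ↔ f ∈ C} := by rw [h]; exact Set.notMem_empty _
    have h2 : G.loc d ∉ {f | (f ∈ A ↔ f ∈ B) ↔ f ∈ C} := by rw [h]; exact Set.notMem_empty _
    exact q5 sA sB sC h1 h2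
  · have h1 : G.loc c ∈ {f | (f ∈ A ↔ f ∈ B) ↔ f ∈ C} := by rw [h]; exact Set.mem_univ _
    have h2 : G.loc d ∈ {f | (f ∈ A ↔ f ∈ B) ↔ f ∈ C} := by rw [h]; exact Set.mem_univ _
    exact q6 sA sB sC h1 h2

include hs in
/-- faces along an edge `g` which ends in `c` lie on the side of `c` -/
theorem side (A : Set F) {e e' g : E} (hp : Par G e e') (hA : G.Region e e' A) (b : Bool)
    (hc1 : G.vert (g, b) ≠ G.vert (e, false)) (hc2 : G.vert (g, b) ≠ G.vert (e, true))
    (ha : G.vert (g, !b) = G.vert (e, false) ∨ G.vert (g, !b) = G.vert (e, true))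
    (d : G.Dart) (hd : d.1.1 = g) : G.face d ∈ A ↔ G.loc (G.vert (g, b)) ∈ A := by
  have hnot : ∀ y : E × Bool, G.vert y = G.vert (g, b) → y.1 ≠ e ∧ y.1 ≠ e' := by
    intro y hy
    constructor
    · intro h
      rcases y with ⟨y, b'⟩
      dsimp only at h
      subst h
      cases b'
      · exact hc1 hy.symm
      · exact hc2 hy.symm
    · intro h
      rcases y with ⟨y, b'⟩
      dsimp only at h
      subst h
      have := (par_mem G hp (G.vert (g, b))).not.1 (by tauto)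
      cases b'
      · exact this (Or.inl hy.symm)
      · exact this (Or.inr hy.symm)
  have hg := hnot (g, b) rfl
  have h1 : ∀ d : G.Dart, d.1.1 = g → (G.face d ∈ A ↔ G.face (G.rev d) ∈ A) := by
    intro d hd
    rw [hA, hd]
    exact hg
  have h2 : ∀ x : Σ e, Fin (G.len e), x.1 = g → ∀ d : G.Dart, d.1.1 = (G.cr x).1 →
      (G.face d ∈ A ↔ G.face (G.rev d) ∈ A) := by
    intro x hx d hd
    rw [hA, hd]
    constructor
    · intro h
      rcases ha with ha | ha
      · exact hs.1 x (!b) false (by rw [hx, h, ha])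
      · exact hs.1 x (!b) true (by rw [hx, h, ha])
    · intro h
      have := (par_mem G hp (G.vert (g, !b))).1 ha
      rcases this with ha | ha
      · exact hs.1 x (!b) false (by rw [hx, h, ha])
      · exact hs.1 x (!b) true (by rw [hx, h, ha])
  rw [along G A g h1 h2 (g, b) rfl d hd]
  exact around G A _ (fun y hy => by
    rw [hA]
    exact hnot y hy) (g, b) rfl

include hs hh in
/-- two pairs of parallel edges do not share exactly one vertex -/
theorem no_adjacent {e e' g g' : E} (he : e ≠ e') (hg : g ≠ g') (pe : Par G e e')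
    (pg : Par G g g') (be bg : Bool) (hb : G.vert (e, !be) = G.vert (g, !bg))
    (hbc : G.vert (e, be) ≠ G.vert (g, bg)) (hle : G.Loopless) (d : V)
    (hd : ∀ v, v = G.vert (e, !be) ∨ v = G.vert (e, be) ∨ v = G.vert (g, bg) ∨ v = d) : False := by
  have le : G.vert (e, be) ≠ G.vert (e, !be) := by
    cases be
    · exact hle e
    · exact (hle e).symm
  have lg : G.vert (g, bg) ≠ G.vert (g, !bg) := by
    cases bg
    · exact hle g
    · exact (hle g).symm
  have hce : ∀ v, v ≠ G.vert (e, false) → v ≠ G.vert (e, true) → v = G.vert (g, bg) ∨ v = d := by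
    intro v h1 h2
    rcases hd v with h | h | h | h
    · cases be
      · exact absurd h h2
      · exact absurd h h1
    · cases be
      · exact absurd h h1
      · exact absurd h h2
    · exact Or.inl h
    · exact Or.inr h
  have hcg : ∀ v, v ≠ G.vert (g, false) → v ≠ G.vert (g, true) → v = G.vert (e, be) ∨ v = d := by
    intro v h1 h2
    rcases hd v with h | h | h | h
    · rw [hb] at h
      cases bg
      · exact absurd h h2
      · exact absurd h h1
    · exact Or.inl h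
    · cases bg
      · exact absurd h h1
      · exact absurd h h2
    · exact Or.inr h
  obtain ⟨A, hA, sA⟩ := sep G hh he pe (G.vert (g, bg)) d hce
  obtain ⟨B, hB, sB⟩ := sep G hh hg pg (G.vert (e, be)) d hcg
  -- the far end of `g` is not an end of `e`
  have n1 : G.vert (g, bg) ≠ G.vert (e, false) ∧ G.vert (g, bg) ≠ G.vert (e, true) := by
    rw [← hb] at lg
    cases be
    · exact ⟨hbc.symm, lg⟩
    · exact ⟨lg, hbc.symm⟩
  have n2 : G.vert (e, be) ≠ G.vert (g, false) ∧ G.vert (e, be) ≠ G.vert (g, true) := by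
    rw [hb] at le
    cases bg
    · exact ⟨hbc, le⟩
    · exact ⟨le, hbc⟩
  have a1 : G.vert (g, !bg) = G.vert (e, false) ∨ G.vert (g, !bg) = G.vert (e, true) := by
    rw [← hb]
    cases be
    · exact Or.inr rfl
    · exact Or.inl rfl
  have a2 : G.vert (e, !be) = G.vert (g, false) ∨ G.vert (e, !be) = G.vert (g, true) := by
    rw [hb]
    cases bg
    · exact Or.inr rfl
    · exact Or.inl rfl
  have s1 : ∀ d : G.Dart, d.1.1 = g → (G.face d ∈ A ↔ G.loc (G.vert (g, bg)) ∈ A) :=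
    fun d hd => side G hs A pe hA bg n1.1 n1.2 a1 d hd
  have s2 : ∀ d : G.Dart, d.1.1 = e → (G.face d ∈ B ↔ G.loc (G.vert (e, be)) ∈ B) :=
    fun d hd => side G hs B pg hB be n2.1 n2.2 a2 d hd
  -- the same for the parallel edges
  have s1' : ∀ d : G.Dart, d.1.1 = g' → (G.face d ∈ A ↔ G.loc (G.vert (g, bg)) ∈ A) := by
    intro d hd
    have m1 := (par_mem G pg (G.vert (g, bg))).1 (by cases bg <;> simp)
    have m2 := (par_mem G pg (G.vert (g, !bg))).1 (by cases bg <;> simp)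
    rcases m1 with m1 | m1
    · have m3 : G.vert (g, !bg) = G.vert (g', true) := by
        rcases m2 with m2 | m2
        · exact absurd (m1.trans m2.symm) lg
        · exact m2
      rw [m1]
      refine side G hs A pe hA false (by rw [← m1]; exact n1.1) (by rw [← m1]; exact n1.2) ?_ d hd
      rw [Bool.not_false, ← m3]
      exact a1
    · have m3 : G.vert (g, !bg) = G.vert (g', false) := by
        rcases m2 with m2 | m2
        · exact m2
        · exact absurd (m1.trans m2.symm) lg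
      rw [m1]
      refine side G hs A pe hA true (by rw [← m1]; exact n1.1) (by rw [← m1]; exact n1.2) ?_ d hd
      rw [Bool.not_true, ← m3]
      exact a1
  have s2' : ∀ d : G.Dart, d.1.1 = e' → (G.face d ∈ B ↔ G.loc (G.vert (e, be)) ∈ B) := by
    intro d hd
    have m1 := (par_mem G pe (G.vert (e, be))).1 (by cases be <;> simp)
    have m2 := (par_mem G pe (G.vert (e, !be))).1 (by cases be <;> simp)
    rcases m1 with m1 | m1
    · have m3 : G.vert (e, !be) = G.vert (e', true) := by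
        rcases m2 with m2 | m2
        · exact absurd (m1.trans m2.symm) le
        · exact m2
      rw [m1]
      refine side G hs B pg hB false (by rw [← m1]; exact n2.1) (by rw [← m1]; exact n2.2) ?_ d hd
      rw [Bool.not_false, ← m3]
      exact a2
    · have m3 : G.vert (e, !be) = G.vert (e', false) := by
        rcases m2 with m2 | m2
        · exact m2
        · exact absurd (m1.trans m2.symm) le
      rw [m1]
      refine side G hs B pg hB true (by rw [← m1]; exact n2.1) (by rw [← m1]; exact n2.2) ?_ d hd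
      rw [Bool.not_true, ← m3]
      exact a2
  rcases G.conn {f | (f ∈ A ↔ ¬ G.loc (G.vert (g, bg)) ∈ A) ∧
      (f ∈ B ↔ ¬ G.loc (G.vert (e, be)) ∈ B)} (fun x => by
    have a := hA x
    have b := hB x
    simp only [Set.mem_setOf_eq]
    by_cases x1 : x.1.1 = e
    · exact q7 (s2 x x1) (s2 (G.rev x) x1)
    · by_cases x2 : x.1.1 = e'
      · exact q7 (s2' x x2) (s2' (G.rev x) x2)
      · by_cases x3 : x.1.1 = g
        · exact q8 (s1 x x3) (s1 (G.rev x) x3)
        · by_cases x4 : x.1.1 = g'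
          · exact q8 (s1' x x4) (s1' (G.rev x) x4)
          · rw [a.2 ⟨x1, x2⟩, b.2 ⟨x3, x4⟩]) with h | h
  · have h1 : G.loc d ∉ {f | (f ∈ A ↔ ¬ G.loc (G.vert (g, bg)) ∈ A) ∧
      (f ∈ B ↔ ¬ G.loc (G.vert (e, be)) ∈ B)} := by rw [h]; exact Set.notMem_empty _
    apply h1
    constructor
    · rw [sA, not_not]
    · rw [sB, not_not]
  · have h1 : G.loc (G.vert (g, bg)) ∈ {f | (f ∈ A ↔ ¬ G.loc (G.vert (g, bg)) ∈ A) ∧
      (f ∈ B ↔ ¬ G.loc (G.vert (e, be)) ∈ B)} := by rw [h]; exact Set.mem_univ _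
    exact iff_not_self h1.1

end

end Run7.h156.FPX
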