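import Pool.Agent.Run7.h156.FPX.Conn

/-!
# Drawings given by tables
-/

set_option autoImplicit false

namespace Run7.h156.FPX

open Pool.Agent.Q238.FP

/-- tables for a drawing -/
structure Tab where
  /-- number of vertices -/
  n : ℕ
  /-- number of edges -/
  k : ℕ
  /-- number of faces -/
  f : ℕ
  hn : 0 < n
  hf : 0 < f
  /-- numbers of crossing points -/
  ln : List ℕ
  /-- partial sums of `ln` -/
  off : List ℕ
  cre : List ℕ
  crk : List ℕ
  tl : List Bool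
  vt : List ℕ
  rt : List ℕ
  ri : List ℕ
  rv : List ℕ
  kx : List ℕ
  fc : List ℕ
  lc : List ℕ
  ly : List ℕ
  rpe : List ℕ
  rpi : List ℕ
  rpb : List Bool
  kd : List ℕ
  pae : List ℕ
  pai : List ℕ
  pab : List Bool

namespace Tab

variable (T : Tab)

def len (e : Fin T.k) : ℕ := T.ln.getD e 0

def cx (x : Σ e, Fin (T.len e)) : ℕ := T.off.getD x.1 0 + x.2

def mkS (x : Σ e, Fin (T.len e)) (e' k' : ℕ) : Σ e, Fin (T.len e) :=
  if h : e' < T.k then if h' : k' < T.len ⟨e', h⟩ then ⟨⟨e', h⟩, ⟨k', h'⟩⟩ else x else x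

def cr (x : Σ e, Fin (T.len e)) : Σ e, Fin (T.len e) :=
  T.mkS x (T.cre.getD (T.cx x) 0) (T.crk.getD (T.cx x) 0)

def toLeft (x : Σ e, Fin (T.len e)) : Bool := T.tl.getD (T.cx x) false

def fin {m : ℕ} (h : 0 < m) (a : ℕ) : Fin m := ⟨a % m, Nat.mod_lt _ h⟩

def ec (x : Fin T.k × Bool) : ℕ := 2 * x.1 + x.2.toNat

def vert (x : Fin T.k × Bool) : Fin T.n := fin T.hn (T.vt.getD (T.ec x) 0)

def dec (x : Fin T.k × Bool) (c : ℕ) : Fin T.k × Bool :=
  (if h : c / 2 < T.k then ⟨c / 2, h⟩ else x.1, c % 2 == 1)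

def rot (x : Fin T.k × Bool) : Fin T.k × Bool := T.dec x (T.rt.getD (T.ec x) 0)

def roti (x : Fin T.k × Bool) : Fin T.k × Bool := T.dec x (T.ri.getD (T.ec x) 0)

def root (x : Fin T.k × Bool) : Fin T.k × Bool := T.dec x (T.rv.getD (T.vert x) 0)

theorem sig_ext {m : ℕ} {len : Fin m → ℕ} {a b : Σ e, Fin (len e)} (h1 : (a.1 : ℕ) = b.1)
    (h2 : (a.2 : ℕ) = b.2) : a = b := by
  rcases a with ⟨e, i⟩
  rcases b with ⟨e', i'⟩
  have : e = e' := Fin.ext h1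
  subst this
  have : i = i' := Fin.ext h2
  subst this
  rfl

/-- iterates stay in a cycle -/
theorem sameCycle_iterate {α : Type} (σ : Equiv.Perm α) (x : α) (m : ℕ) :
    σ.SameCycle x (σ^[m] x) := by
  induction m with
  | zero => exact Equiv.Perm.SameCycle.refl _ _
  | succ m ih =>
    rw [Function.iterate_succ_apply']
    exact Equiv.Perm.sameCycle_apply_right.2 ih

/-- the data -/
def data (h1 : ∀ e : Fin T.k, ∀ i : Fin (T.len e),
      ((T.cr (T.cr ⟨e, i⟩)).1 : ℕ) = e ∧ ((T.cr (T.cr ⟨e, i⟩)).2 : ℕ) = i)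
    (h2 : ∀ e : Fin T.k, ∀ i : Fin (T.len e), T.toLeft (T.cr ⟨e, i⟩) = !T.toLeft ⟨e, i⟩)
    (h3 : ∀ e : Fin T.k, ∀ b, T.roti (T.rot (e, b)) = (e, b))
    (h4 : ∀ e : Fin T.k, ∀ b, T.rot (T.roti (e, b)) = (e, b))
    (h5 : ∀ e : Fin T.k, ∀ b, T.vert (T.rot (e, b)) = T.vert (e, b))
    (h6 : ∀ e : Fin T.k, ∀ b, T.rot^[T.kx.getD (T.ec (e, b)) 0] (T.root (e, b)) = (e, b))
    (h7 : ∀ e : Fin T.k, ∀ b, T.rv.getD (T.vert (e, b)) 0 / 2 < T.k) :
    Data (Fin T.n) (Fin T.k) where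
  vert := T.vert
  len := T.len
  cr := T.cr
  toLeft := T.toLeft
  rot := ⟨T.rot, T.roti, fun x => h3 x.1 x.2, fun x => h4 x.1 x.2⟩
  cr_cr := fun x => sig_ext (h1 x.1 x.2).1 (h1 x.1 x.2).2
  toLeft_cr := fun x => h2 x.1 x.2
  rot_vert := by
    intro x y
    constructor
    · rintro ⟨m, rfl⟩
      have key : ∀ (m : ℤ) (x : Fin T.k × Bool), T.vert
          (((⟨T.rot, T.roti, fun x => h3 x.1 x.2, fun x => h4 x.1 x.2⟩ :
            Equiv.Perm (Fin T.k × Bool)) ^ m) x) = T.vert x := by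
        intro m
        induction m with
        | zero => intro x; rfl
        | succ m ih =>
          intro x
          rw [add_comm, zpow_add, zpow_one, Equiv.Perm.mul_apply]
          exact (h5 _ _).trans (ih x)
        | pred m ih =>
          intro x
          rw [sub_eq_add_neg, add_comm, zpow_add, zpow_neg_one, Equiv.Perm.mul_apply]
          refine Eq.trans ?_ (ih x)
          generalize (((⟨T.rot, T.roti, fun x => h3 x.1 x.2, fun x => h4 x.1 x.2⟩ :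
            Equiv.Perm (Fin T.k × Bool)) ^ (-(m : ℤ))) x) = z
          change T.vert (T.roti z) = T.vert z
          have := h5 (T.roti z).1 (T.roti z).2
          rw [Prod.mk.eta, h4 z.1 z.2] at this
          exact this.symm
      exact (key m x).symm
    · intro h
      have e1 : ∀ x : Fin T.k × Bool, T.root x = T.dec x (T.rv.getD (T.vert x) 0) := fun x => rfl
      have hr : T.root x = T.root y := by
        rw [e1, e1]
        unfold dec
        have := h7 x.1 x.2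
        have := h7 y.1 y.2
        rw [h]
        simp only [Prod.mk.eta] at *
        rw [dif_pos this, dif_pos this]
      have hx := sameCycle_iterate (⟨T.rot, T.roti, fun x => h3 x.1 x.2, fun x => h4 x.1 x.2⟩ :
            Equiv.Perm (Fin T.k × Bool)) (T.root x) (T.kx.getD (T.ec x) 0)
      have hy := sameCycle_iterate (⟨T.rot, T.roti, fun x => h3 x.1 x.2, fun x => h4 x.1 x.2⟩ :
            Equiv.Perm (Fin T.k × Bool)) (T.root y) (T.kx.getD (T.ec y) 0)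
      change Equiv.Perm.SameCycle _ _ (T.rot^[T.kx.getD (T.ec x) 0] (T.root x)) at hx
      change Equiv.Perm.SameCycle _ _ (T.rot^[T.kx.getD (T.ec y) 0] (T.root y)) at hy
      have hx' := h6 x.1 x.2
      have hy' := h6 y.1 y.2
      simp only [Prod.mk.eta] at hx' hy'
      rw [hx'] at hx
      rw [hy', ← hr] at hy
      exact hx.symm.trans hy

def face (d : (Σ e, Fin (T.len e + 1)) × Bool) : Fin T.f :=
  fin T.hf (T.fc.getD (2 * (T.off.getD d.1.1 0 + d.1.1 + d.1.2) + d.2.toNat) 0)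

def loc (v : Fin T.n) : Fin T.f := fin T.hf (T.lc.getD v 0)

/-- a dart from its numbers -/
def mkD (d : (Σ e, Fin (T.len e + 1)) × Bool) (e' k' : ℕ) (b : Bool) :
    (Σ e, Fin (T.len e + 1)) × Bool :=
  (if h : e' < T.k then if h' : k' < T.len ⟨e', h⟩ + 1 then ⟨⟨e', h⟩, ⟨k', h'⟩⟩ else d.1 else d.1, b)

def rep (d : (Σ e, Fin (T.len e + 1)) × Bool) (f : Fin T.f) : (Σ e, Fin (T.len e + 1)) × Bool :=
  T.mkD d (T.rpe.getD f 0) (T.rpi.getD f 0) (T.rpb.getD f false)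

def pa (d : (Σ e, Fin (T.len e + 1)) × Bool) (f : Fin T.f) : (Σ e, Fin (T.len e + 1)) × Bool :=
  T.mkD d (T.pae.getD f 0) (T.pai.getD f 0) (T.pab.getD f false)

theorem mkD_eq (d d' : (Σ e, Fin (T.len e + 1)) × Bool) (e' k' : ℕ) (b : Bool) (h : e' < T.k)
    (h' : k' < T.ln.getD e' 0 + 1) : T.mkD d e' k' b = T.mkD d' e' k' b := by
  unfold mkD
  rw [dif_pos h, dif_pos h, dif_pos (show k' < T.len ⟨e', h⟩ + 1 from h'), dif_pos (show k' < T.len ⟨e', h⟩ + 1 from h')]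

theorem dart_ext {a b : (Σ e, Fin (T.len e + 1)) × Bool} (h1 : (a.1.1 : ℕ) = b.1.1)
    (h2 : (a.1.2 : ℕ) = b.1.2) (h3 : a.2 = b.2) : a = b :=
  Prod.ext (sig_ext h1 h2) h3

section

variable (h1 : ∀ e : Fin T.k, ∀ i : Fin (T.len e),
      ((T.cr (T.cr ⟨e, i⟩)).1 : ℕ) = e ∧ ((T.cr (T.cr ⟨e, i⟩)).2 : ℕ) = i)
    (h2 : ∀ e : Fin T.k, ∀ i : Fin (T.len e), T.toLeft (T.cr ⟨e, i⟩) = !T.toLeft ⟨e, i⟩)
    (h3 : ∀ e : Fin T.k, ∀ b, T.roti (T.rot (e, b)) = (e, b))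
    (h4 : ∀ e : Fin T.k, ∀ b, T.rot (T.roti (e, b)) = (e, b))
    (h5 : ∀ e : Fin T.k, ∀ b, T.vert (T.rot (e, b)) = T.vert (e, b))
    (h6 : ∀ e : Fin T.k, ∀ b, T.rot^[T.kx.getD (T.ec (e, b)) 0] (T.root (e, b)) = (e, b))
    (h7 : ∀ e : Fin T.k, ∀ b, T.rv.getD (T.vert (e, b)) 0 / 2 < T.k)

/-- the drawing given by the tables -/
def cd
    (g1 : ∀ e : Fin T.k, ∀ i : Fin (T.len e + 1), ∀ b,
      T.face ((T.data h1 h2 h3 h4 h5 h6 h7).next (⟨e, i⟩, b)) = T.face (⟨e, i⟩, b))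
    (g2 : ∀ e : Fin T.k, ∀ b,
      T.vert (T.dec (e, b) (T.ly.getD (T.vert (e, b)) 0)) = T.vert (e, b) ∧
      T.face ((T.data h1 h2 h3 h4 h5 h6 h7).out (T.dec (e, b) (T.ly.getD (T.vert (e, b)) 0))) =
        T.loc (T.vert (e, b)))
    (g3 : ∀ f : Fin T.f, T.rpe.getD f 0 < T.k ∧ T.rpi.getD f 0 < T.ln.getD (T.rpe.getD f 0) 0 + 1)
    (g4 : ∀ e : Fin T.k, ∀ i : Fin (T.len e + 1), ∀ b, ∀ f : Fin T.f,
      (e : ℕ) = 0 → T.face (T.rep (⟨e, i⟩, b) f) = f)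
    (g5 : ∀ e : Fin T.k, ∀ i : Fin (T.len e + 1), ∀ b,
      ((((T.data h1 h2 h3 h4 h5 h6 h7).next^[T.kd.getD
        (2 * (T.off.getD e 0 + e + i) + b.toNat) 0] (T.rep (⟨e, i⟩, b) (T.face (⟨e, i⟩, b)))).1.1
          : Fin T.k) : ℕ) = e ∧
      (((T.data h1 h2 h3 h4 h5 h6 h7).next^[T.kd.getD
        (2 * (T.off.getD e 0 + e + i) + b.toNat) 0] (T.rep (⟨e, i⟩, b)
          (T.face (⟨e, i⟩, b)))).1.2 : ℕ) = i ∧
      ((T.data h1 h2 h3 h4 h5 h6 h7).next^[T.kd.getD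
        (2 * (T.off.getD e 0 + e + i) + b.toNat) 0] (T.rep (⟨e, i⟩, b)
          (T.face (⟨e, i⟩, b)))).2 = b)
    (g6 : ∀ v : Fin T.n, ∃ e : Fin T.k, ∃ b, T.vert (e, b) = v)
    (g7 : ∀ e : Fin T.k, ∀ i : Fin (T.len e + 1), ∀ b, ∀ f : Fin T.f,
      (e : ℕ) = 0 → (f : ℕ) ≠ 0 → T.face (T.pa (⟨e, i⟩, b) f) = f ∧
        T.face ((T.data h1 h2 h3 h4 h5 h6 h7).rev (T.pa (⟨e, i⟩, b) f)) < f)
    (g8 : 2 * T.n + (∑ e : Fin T.k, T.len e) + 2 * T.f = 2 * (∑ e : Fin T.k, (T.len e + 1)) + 4)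
    (g9 : 0 < T.k) :
    CD (Fin T.n) (Fin T.k) (Fin T.f) where
  toData := T.data h1 h2 h3 h4 h5 h6 h7
  face := T.face
  loc := T.loc
  face_next := fun d => g1 d.1.1 d.1.2 d.2
  face_loc := fun x => ⟨_, (g2 x.1 x.2).1, (g2 x.1 x.2).2⟩
  face_surj := fun f => ⟨T.rep (⟨⟨0, g9⟩, 0⟩, false) f, g4 ⟨0, g9⟩ 0 false f rfl⟩
  face_inj := by
    have key : ∀ (m : ℕ) (d : (T.data h1 h2 h3 h4 h5 h6 h7).Dart),
        (Quot.mk _ ((T.data h1 h2 h3 h4 h5 h6 h7).next^[m] d) :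
          (T.data h1 h2 h3 h4 h5 h6 h7).Walk) = Quot.mk _ d := by
      intro m d
      induction m with
      | zero => rfl
      | succ m ih =>
        rw [Function.iterate_succ_apply', ← ih]
        exact (Quot.sound (r := fun d d' : (T.data h1 h2 h3 h4 h5 h6 h7).Dart =>
          (T.data h1 h2 h3 h4 h5 h6 h7).next d = d') rfl).symm
    have key2 : ∀ d : (T.data h1 h2 h3 h4 h5 h6 h7).Dart,
        (Quot.mk _ d : (T.data h1 h2 h3 h4 h5 h6 h7).Walk) =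
          Quot.mk _ (T.rep (⟨⟨0, g9⟩, 0⟩, false) (T.face d)) := by
      intro d
      have := g5 d.1.1 d.1.2 d.2
      have h : (T.data h1 h2 h3 h4 h5 h6 h7).next^[T.kd.getD
        (2 * (T.off.getD d.1.1 0 + d.1.1 + d.1.2) + d.2.toNat) 0] (T.rep d (T.face d)) = d :=
        T.dart_ext this.1 this.2.1 this.2.2
      have h' : T.rep d (T.face d) = T.rep (⟨⟨0, g9⟩, 0⟩, false) (T.face d) :=
        T.mkD_eq _ _ _ _ _ (g3 _).1 (g3 _).2
      have e1 := key (T.kd.getD (2 * (T.off.getD d.1.1 0 + d.1.1 + d.1.2) + d.2.toNat) 0)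
        (T.rep d (T.face d))
      rw [h] at e1
      exact e1.trans (congrArg (Quot.mk _) h')
    intro d d' h
    rw [key2 d, key2 d', h]
  vsurj := fun v => by
    obtain ⟨e, b, h⟩ := g6 v
    exact ⟨(e, b), h⟩
  conn := by
    intro A hA
    have key : ∀ m : ℕ, ∀ f : Fin T.f, (f : ℕ) = m → (f ∈ A ↔ (⟨0, T.hf⟩ : Fin T.f) ∈ A) := by
      intro m
      induction m using Nat.strong_induction_on with
      | _ m ih =>
        intro f hf
        rcases Nat.eq_zero_or_pos m with h0 | h0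
        · have : f = ⟨0, T.hf⟩ := Fin.ext (by rw [hf, h0])
          rw [this]
        · obtain ⟨e1, e2⟩ := g7 ⟨0, g9⟩ 0 false f rfl (by omega)
          rw [← ih _ (by rw [← hf]; exact e2) _ rfl, ← hA, e1]
    by_cases h : (⟨0, T.hf⟩ : Fin T.f) ∈ A
    · right
      exact Set.eq_univ_of_forall fun f => (key _ f rfl).2 h
    · left
      exact Set.eq_empty_of_forall_notMem fun f hf => h ((key _ f rfl).1 hf)
  count := by
    rw [Nat.card_eq_fintype_card, Nat.card_eq_fintype_card, Nat.card_eq_fintype_card,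
      Nat.card_eq_fintype_card, Fintype.card_sigma, Fintype.card_sigma, Fintype.card_fin,
      Fintype.card_fin]
    simp only [Fintype.card_fin]
    exact g8

end

end Tab

end Run7.h156.FPX
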