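import Pool.Agent.Run7.h156.FPX.Small

/-!
# At most three edges on three vertices, at most eight edges on four vertices
-/

set_option autoImplicit false

namespace Run7.h156.FPX

open Pool.Agent.Q238.FP

open Classical

variable {V E F : Type} (G : Drawing V E F)

/-- the pair of ends -/
noncomputable def pr (e : E) : Finset V := {G.vert (e, false), G.vert (e, true)}

theorem pr_par {e e' : E} (h : pr G e = pr G e') : Par G e e' := by
  have := congrArg (fun s : Finset V => (s : Set V)) h
  simpa [pr, Par] using this

theorem pr_card (hl : G.Loopless) (e : E) : (pr G e).card = 2 := Finset.card_pair (hl e)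

theorem upper3 [Fintype V] [Fintype E] (hl : G.Loopless) (hh : G.NonHomotopic)
    (h3 : Fintype.card V = 3) : Fintype.card E ≤ 3 := by
  have hinj : Function.Injective (pr G) := by
    intro e e' h
    by_contra hne
    obtain ⟨A, -, ⟨v, hv1, hv2, hv3⟩, ⟨w, hw1, hw2, hw3⟩⟩ := hh e e' hne (pr_par G h)
    have hvw : v ≠ w := by
      rintro rfl
      exact hw3 hv3
    have h4 : ({v, w, G.vert (e, false), G.vert (e, true)} : Finset V).card = 4 := by
      rw [Finset.card_insert_of_notMem, Finset.card_insert_of_notMem, Finset.card_pair (hl e)]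
      · simp only [Finset.mem_insert, Finset.mem_singleton, not_or]
        exact ⟨hw1, hw2⟩
      · simp only [Finset.mem_insert, Finset.mem_singleton, not_or]
        exact ⟨hvw, hv1, hv2⟩
    have h5 := Finset.card_le_univ ({v, w, G.vert (e, false), G.vert (e, true)} : Finset V)
    omega
  have h1 : (Finset.univ.image (pr G)).card = Fintype.card E := by
    rw [Finset.card_image_of_injective _ hinj, Finset.card_univ]
  have h2 : Finset.univ.image (pr G) ⊆ Finset.powersetCard 2 (Finset.univ : Finset V) := by
    intro s hs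
    obtain ⟨e, -, rfl⟩ := Finset.mem_image.1 hs
    exact Finset.mem_powersetCard.2 ⟨Finset.subset_univ _, pr_card G hl e⟩
  have h4 := Finset.card_le_card h2
  rw [h1, Finset.card_powersetCard, Finset.card_univ, h3] at h4
  exact h4

theorem upper4 [Fintype V] [Fintype E] (hl : G.Loopless) (hs : G.Simple) (hh : G.NonHomotopic)
    (h4 : Fintype.card V = 4) : Fintype.card E ≤ 8 := by
  -- further vertices
  have rest : ∀ s : Finset V, s.card = 2 → ∃ c d, ∀ v, v ∉ s → v = c ∨ v = d := by
    intro s hs
    have : (sᶜ).card = 2 := by rw [Finset.card_compl, hs, h4]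
    obtain ⟨c, d, -, hcd⟩ := Finset.card_eq_two.1 this
    refine ⟨c, d, fun v hv => ?_⟩
    have : v ∈ sᶜ := Finset.mem_compl.2 hv
    rw [hcd] at this
    simpa using this
  have fib : ∀ s : Finset V, (Finset.univ.filter (fun e => pr G e = s)).card ≤ 2 := by
    intro s
    by_contra hc
    push Not at hc
    obtain ⟨e1, e2, e3, m1, m2, m3, h12, h13, h23⟩ := Finset.two_lt_card_iff.1 hc
    rw [Finset.mem_filter] at m1 m2 m3
    obtain ⟨c, d, hcd⟩ := rest (pr G e1) (pr_card G hl e1)
    refine no_three G hh h12 h13 h23 (pr_par G (m1.2.trans m2.2.symm))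
      (pr_par G (m1.2.trans m3.2.symm)) c d (fun v a b => hcd v ?_)
    simp only [pr, Finset.mem_insert, Finset.mem_singleton, not_or]
    exact ⟨a, b⟩
  set S := Finset.powersetCard 2 (Finset.univ : Finset V) with hS
  set D := S.filter (fun s => 2 ≤ (Finset.univ.filter (fun e => pr G e = s)).card) with hD
  have hcS : S.card = 6 := by
    rw [hS, Finset.card_powersetCard, Finset.card_univ, h4]
    rfl
  have hdis : (D : Set (Finset V)).PairwiseDisjoint id := by
    intro s hs' t ht' hst
    rw [Function.onFun, id, id, Finset.disjoint_left]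
    intro a has hat
    have hs1 := Finset.mem_filter.1 (Finset.mem_coe.1 hs')
    have ht1 := Finset.mem_filter.1 (Finset.mem_coe.1 ht')
    obtain ⟨e, he, e', he', hne⟩ := Finset.one_lt_card.1 hs1.2
    obtain ⟨g, hg, g', hg', hng⟩ := Finset.one_lt_card.1 ht1.2
    rw [Finset.mem_filter] at he he' hg hg'
    have cs : ∀ (e : E), a ∈ pr G e → ∃ b, G.vert (e, !b) = a := by
      intro e ha
      simp only [pr, Finset.mem_insert, Finset.mem_singleton] at ha
      rcases ha with h | h
      · exact ⟨true, h.symm⟩
      · exact ⟨false, h.symm⟩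
    obtain ⟨be, hbe⟩ := cs e (by rw [he.2]; exact has)
    obtain ⟨bg, hbg⟩ := cs g (by rw [hg.2]; exact hat)
    have pr' : ∀ (e : E) (b : Bool), pr G e = {G.vert (e, !b), G.vert (e, b)} := by
      intro e b
      cases b
      · exact Finset.pair_comm _ _
      · rfl
    have hbc : G.vert (e, be) ≠ G.vert (g, bg) := by
      intro h
      apply hst
      rw [← he.2, ← hg.2, pr' e be, pr' g bg, hbe, hbg, h]
    have hle : ∀ (e : E) (b : Bool), G.vert (e, !b) ≠ G.vert (e, b) := by
      intro e b
      cases b
      · exact (hl e).symm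
      · exact hl e
    have h3c : ({G.vert (e, !be), G.vert (e, be), G.vert (g, bg)} : Finset V).card = 3 := by
      rw [Finset.card_insert_of_notMem, Finset.card_pair hbc]
      simp only [Finset.mem_insert, Finset.mem_singleton, not_or]
      refine ⟨hle e be, ?_⟩
      rw [hbe, ← hbg]
      exact hle g bg
    have hcompl : (({G.vert (e, !be), G.vert (e, be), G.vert (g, bg)} : Finset V)ᶜ).card = 1 := by
      rw [Finset.card_compl, h3c, h4]
    obtain ⟨d, hd⟩ := Finset.card_eq_one.1 hcompl
    refine no_adjacent G hs hh hne hng (pr_par G (he.2.trans he'.2.symm))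
      (pr_par G (hg.2.trans hg'.2.symm)) be bg (hbe.trans hbg.symm) hbc hl d (fun v => ?_)
    by_cases hv : v ∈ ({G.vert (e, !be), G.vert (e, be), G.vert (g, bg)} : Finset V)
    · simp only [Finset.mem_insert, Finset.mem_singleton] at hv
      rcases hv with h | h | h
      · exact Or.inl h
      · exact Or.inr (Or.inl h)
      · exact Or.inr (Or.inr (Or.inl h))
    · have : v ∈ ({G.vert (e, !be), G.vert (e, be), G.vert (g, bg)} : Finset V)ᶜ :=
        Finset.mem_compl.2 hv
      rw [hd] at this
      exact Or.inr (Or.inr (Or.inr (Finset.mem_singleton.1 this)))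
  have hcD : D.card ≤ 2 := by
    have h1 := Finset.card_biUnion hdis
    have h2 : ∑ s ∈ D, (id s).card = ∑ s ∈ D, 2 := by
      refine Finset.sum_congr rfl fun s hs => ?_
      exact (Finset.mem_powersetCard.1 (Finset.mem_filter.1 hs).1).2
    rw [h2, Finset.sum_const, smul_eq_mul] at h1
    have h3 := Finset.card_le_univ (D.biUnion id)
    omega
  have hsum : Fintype.card E = ∑ s ∈ S, (Finset.univ.filter (fun e => pr G e = s)).card := by
    rw [← Finset.card_univ]
    exact Finset.card_eq_sum_card_fiberwise (fun e _ =>
      Finset.mem_powersetCard.2 ⟨Finset.subset_univ _, pr_card G hl e⟩)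
  have hle : ∑ s ∈ S, (Finset.univ.filter (fun e => pr G e = s)).card ≤
      ∑ s ∈ S, (1 + if 2 ≤ (Finset.univ.filter (fun e => pr G e = s)).card then 1 else 0) := by
    refine Finset.sum_le_sum fun s _ => ?_
    have := fib s
    split_ifs <;> omega
  rw [Finset.sum_add_distrib, Finset.sum_const, smul_eq_mul, ← Finset.card_filter] at hle
  rw [← hD] at hle
  omega

end Run7.h156.FPX
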